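import Pool.Agent.X176.SI.Grp

set_option autoImplicit false

namespace Pool.Agent.X176.SI

variable {a : ℕ → ℕ → Bool}

/-- The quantifier free formula: `x` commutes with `c`, `x d = d c x`, and if `y ^ 3 = 1` and `y`
commutes with `c` then `y` commutes with `x`. -/
def phi {G : Type*} [Group G] (x y c d : G) : Prop :=
  x * c = c * x ∧ x * d = d * c * x ∧ (y ^ 3 = 1 ∧ y * c = c * y → y * x = x * y)

def wc (k : ℕ) : ℕ := if k % 2 = 1 ∧ k / 2 % 3 < 2 then 1 else 0
def wd (k : ℕ) : ℕ := if k % 2 = 1 ∧ k / 2 % 3 = 0 then 1 else 0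
def wr (n k : ℕ) : ℕ := if k = 2 * n then 3 else 0
def wx (K : ℕ → Bool) (k : ℕ) : ℕ := if k % 2 = 0 ∧ K (k / 2) = true then 2 else 0

theorem wc_lt (k : ℕ) : wc k < 6 := by unfold wc; split_ifs <;> omega
theorem wd_lt (k : ℕ) : wd k < 6 := by unfold wd; split_ifs <;> omega
theorem wr_lt (n k : ℕ) : wr n k < 6 := by unfold wr; split_ifs <;> omega
theorem wx_lt (K : ℕ → Bool) (k : ℕ) : wx K k < 6 := by unfold wx; split_ifs <;> omega

theorem tb0 : ∀ i < 3, tb 0 i = i := by decide
theorem tb2 : tb 2 0 = 1 ∧ tb 2 1 = 0 ∧ tb 2 2 = 2 := by decide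
theorem tb3 : tb 3 0 = 1 ∧ tb 3 1 = 2 ∧ tb 3 2 = 0 := by decide

theorem c_pt (m i e : ℕ) (hi : i < 3) (he : e < 2) :
    gv a wc (pt m i e) = pt m i ((e + (if act a m = true ∧ i < 2 then 1 else 0)) % 2) := by
  rw [gv_pt _ _ _ _ hi he]
  have h1 : wc (2 * m.unpair.1) = 0 := by unfold wc; rw [if_neg (by omega)]
  rw [h1, tb0 i hi]
  unfold bt wc
  have e3 : (2 * (3 * m + i) + 1) % 2 = 1 := by omega
  have e5 : (2 * (3 * m + i) + 1) / 2 % 3 = i := by omega
  rw [e3, e5]
  by_cases h : act a m = true <;> simp [h]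

theorem d_pt (m i e : ℕ) (hi : i < 3) (he : e < 2) :
    gv a wd (pt m i e) = pt m i ((e + (if act a m = true ∧ i = 0 then 1 else 0)) % 2) := by
  rw [gv_pt _ _ _ _ hi he]
  have h1 : wd (2 * m.unpair.1) = 0 := by unfold wd; rw [if_neg (by omega)]
  rw [h1, tb0 i hi]
  unfold bt wd
  have e3 : (2 * (3 * m + i) + 1) % 2 = 1 := by omega
  have e5 : (2 * (3 * m + i) + 1) / 2 % 3 = i := by omega
  rw [e3, e5]
  by_cases h : act a m = true <;> simp [h]

theorem r_pt (n m i e : ℕ) (hi : i < 3) (he : e < 2) :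
    gv a (wr n) (pt m i e) = pt m (if m.unpair.1 = n then tb 3 i else i) e := by
  rw [gv_pt _ _ _ _ hi he]
  have h2 : bt a (wr n) m i = 0 := by
    unfold bt wr
    rw [if_neg (by omega : ¬ (2 * (3 * m + i) + 1 = 2 * n))]
    simp
  rw [h2]
  unfold wr
  by_cases h : m.unpair.1 = n
  · rw [if_pos (by omega), if_pos h]
    congr 1; omega
  · rw [if_neg (by omega), if_neg h, tb0 i hi]
    congr 1; omega

theorem x_pt (K : ℕ → Bool) (m i e : ℕ) (hi : i < 3) (he : e < 2) :
    gv a (wx K) (pt m i e) = pt m (if K m.unpair.1 = true then tb 2 i else i) e := by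
  rw [gv_pt _ _ _ _ hi he]
  have h2 : bt a (wx K) m i = 0 := by
    unfold bt wx
    rw [if_neg (by omega : ¬ ((2 * (3 * m + i) + 1) % 2 = 0 ∧ K ((2 * (3 * m + i) + 1) / 2) = true))]
    simp
  rw [h2]
  unfold wx
  have e1 : 2 * m.unpair.1 / 2 = m.unpair.1 := by omega
  rw [e1]
  by_cases h : K m.unpair.1 = true
  · rw [if_pos ⟨by omega, h⟩, if_pos h]
    congr 1; omega
  · rw [if_neg (fun h' => h h'.2), if_neg h, tb0 i hi]
    congr 1; omega

theorem comm_c {y : Equiv.Perm ℕ} (hy : y ∈ GG a)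
    (h : ∀ z, y (gv a wc z) = gv a wc (y z)) (n s : ℕ) (hs : a n s = true) (i : ℕ) (hi : i < 3) :
    i < 2 ↔ PP y n i < 2 := by
  have hact : act a (Nat.pair n s) = true := by unfold act; rw [Nat.unpair_pair]; exact hs
  have h1 := h (pt (Nat.pair n s) i 0)
  rw [c_pt _ _ _ hi (by omega), desc hy _ _ _ hi (by omega), desc hy _ _ _ hi (by omega),
    c_pt _ _ _ (PP_lt _ _ _) (by omega), Nat.unpair_pair] at h1
  simp only [hact, true_and] at h1
  unfold pt at h1
  have := VV_lt y (Nat.pair n s) i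
  by_cases h2 : i < 2 <;> by_cases h3 : PP y n i < 2 <;>
    simp only [h2, h3, if_true, if_false] at h1 ⊢ <;> omega

theorem forced {x : Equiv.Perm ℕ} (hx : x ∈ GG a)
    (hc : ∀ z, x (gv a wc z) = gv a wc (x z))
    (hd : ∀ z, x (gv a wd z) = gv a wd (gv a wc (x z))) (n s : ℕ) (hs : a n s = true) :
    PP x n 0 = 1 ∧ PP x n 1 = 0 := by
  have hact : act a (Nat.pair n s) = true := by unfold act; rw [Nat.unpair_pair]; exact hs
  have key : ∀ i, i < 3 → (i = 0 ↔ ¬ (PP x n i < 2 ↔ PP x n i = 0)) := by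
    intro i hi
    have h1 := hd (pt (Nat.pair n s) i 0)
    rw [d_pt _ _ _ hi (by omega), desc hx _ _ _ hi (by omega), desc hx _ _ _ hi (by omega),
      c_pt _ _ _ (PP_lt _ _ _) (by omega), d_pt _ _ _ (PP_lt _ _ _) (by omega),
      Nat.unpair_pair] at h1
    simp only [hact, true_and] at h1
    unfold pt at h1
    have := VV_lt x (Nat.pair n s) i
    clear hd hc
    generalize PP x n i = p at *
    generalize VV x (Nat.pair n s) i = v at *
    by_cases h2 : i = 0
    · rw [if_pos h2] at h1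
      split_ifs at h1 <;> omega
    · rw [if_neg h2] at h1
      split_ifs at h1 <;> omega
  have c0 := (comm_c hx hc n s hs 0 (by omega)).1 (by omega)
  have c1 := (comm_c hx hc n s hs 1 (by omega)).1 (by omega)
  have k0 := (key 0 (by omega)).1 rfl
  have k1 := not_congr (key 1 (by omega))
  constructor
  · omega
  · have : (PP x n 1 < 2 ↔ PP x n 1 = 0) := by
      by_contra hh
      exact absurd ((key 1 (by omega)).2 hh) (by omega)
    exact this.1 c1

theorem pow3 {y : Equiv.Perm ℕ} (h : y ^ 3 = 1) (z : ℕ) : y (y (y z)) = z := by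
  have := congrArg (fun f : Equiv.Perm ℕ => f z) h
  simpa [pow_succ, Equiv.Perm.mul_apply] using this

theorem mul_eq {f g h k : Equiv.Perm ℕ} (e : f * g = h * k) (z : ℕ) : f (g z) = h (k z) :=
  congrArg (fun p : Equiv.Perm ℕ => p z) e

/-- the rotation at `n` -/
theorem rot (n : ℕ) (hn : ∀ s, a n s = false) :
    (gp a (wr n) (wr_lt n)) ^ 3 = 1 ∧
    gp a (wr n) (wr_lt n) * gp a wc wc_lt = gp a wc wc_lt * gp a (wr n) (wr_lt n) ∧
    ∀ x ∈ GG a, gp a (wr n) (wr_lt n) * x = x * gp a (wr n) (wr_lt n) →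
      ¬ (PP x n 0 = 1 ∧ PP x n 1 = 0) := by
  have ht : ∀ i, i < 3 → tb 3 i < 3 := fun i hi => (tb_spec 3 (by omega) i hi).1
  refine ⟨?_, ?_, ?_⟩
  · ext z
    obtain ⟨m, i, e, hi, he, rfl⟩ := exists_pt z
    simp only [pow_succ, pow_zero, one_mul, Equiv.Perm.mul_apply, gp_apply, Equiv.Perm.one_apply]
    by_cases h : m.unpair.1 = n
    · rw [r_pt _ _ _ _ hi he, if_pos h, r_pt _ _ _ _ (ht _ hi) he, if_pos h,
        r_pt _ _ _ _ (ht _ (ht _ hi)) he, if_pos h]
      congr 1
      interval_cases i <;> decide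
    · rw [r_pt _ _ _ _ hi he, if_neg h, r_pt _ _ _ _ hi he, if_neg h, r_pt _ _ _ _ hi he, if_neg h]
  · ext z
    obtain ⟨m, i, e, hi, he, rfl⟩ := exists_pt z
    simp only [Equiv.Perm.mul_apply, gp_apply]
    by_cases h : m.unpair.1 = n
    · have hact : ¬ (act a m = true) := by unfold act; rw [h, hn]; simp
      rw [c_pt _ _ _ hi he, if_neg (fun h' => hact h'.1), r_pt _ _ _ _ hi (by omega), if_pos h,
        r_pt _ _ _ _ hi he, if_pos h, c_pt _ _ _ (ht _ hi) he, if_neg (fun h' => hact h'.1)]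
    · rw [c_pt _ _ _ hi he, r_pt _ _ _ _ hi (by omega), if_neg h,
        r_pt _ _ _ _ hi he, if_neg h, c_pt _ _ _ hi he]
  · rintro x hx hcomm ⟨h0, h1⟩
    have := mul_eq hcomm (pt (Nat.pair n 0) 0 0)
    rw [gp_apply, gp_apply, desc hx _ _ _ (by omega) (by omega), r_pt _ _ _ _ (PP_lt _ _ _) (by omega),
      r_pt _ _ _ _ (by omega) (by omega), Nat.unpair_pair] at this
    simp only [if_true, h0, tb3] at this
    rw [desc hx _ _ _ (by omega) (by omega), Nat.unpair_pair] at this
    simp only [h1] at this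
    unfold pt at this
    omega

/-- the witness -/
theorem witness (K : ℕ → Bool) (hK : ∀ n, K n = true ↔ ∃ s, a n s = true) :
    ∀ y ∈ GG a, phi (gp a (wx K) (wx_lt K)) y (gp a wc wc_lt) (gp a wd wd_lt) := by
  intro y hy
  have ht : ∀ i, i < 3 → tb 2 i < 3 := fun i hi => (tb_spec 2 (by omega) i hi).1
  have hact : ∀ m, act a m = true → K m.unpair.1 = true := fun m h => (hK _).2 ⟨_, h⟩
  have ht2 : ∀ i, i < 3 → (tb 2 i < 2 ↔ i < 2) := by
    intro i hi; interval_cases i <;> decide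
  refine ⟨?_, ?_, ?_⟩
  · ext z
    obtain ⟨m, i, e, hi, he, rfl⟩ := exists_pt z
    simp only [Equiv.Perm.mul_apply, gp_apply]
    rw [c_pt _ _ _ hi he, x_pt _ _ _ _ hi (by omega), x_pt _ _ _ _ hi he]
    by_cases h : K m.unpair.1 = true
    · rw [if_pos h, c_pt _ _ _ (ht _ hi) he]
      simp only [ht2 i hi]
    · rw [if_neg h, c_pt _ _ _ hi he]
  · ext z
    obtain ⟨m, i, e, hi, he, rfl⟩ := exists_pt z
    simp only [Equiv.Perm.mul_apply, gp_apply]
    rw [d_pt _ _ _ hi he, x_pt _ _ _ _ hi (by omega), x_pt _ _ _ _ hi he]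
    by_cases h : K m.unpair.1 = true
    · rw [if_pos h, c_pt _ _ _ (ht _ hi) he, d_pt _ _ _ (ht _ hi) (by omega)]
      congr 1
      by_cases h2 : act a m = true
      · interval_cases i <;> simp [h2, tb2] <;> omega
      · simp [h2]
    · have h2 : ¬ (act a m = true) := fun h' => h (hact m h')
      rw [if_neg h, c_pt _ _ _ hi he, d_pt _ _ _ hi (by omega)]
      congr 1
      simp [h2]
  · rintro ⟨h3, hcom⟩
    ext z
    obtain ⟨m, i, e, hi, he, rfl⟩ := exists_pt z
    simp only [Equiv.Perm.mul_apply, gp_apply]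
    by_cases h : K m.unpair.1 = true
    · obtain ⟨s, hs⟩ := (hK _).1 h
      have hc : ∀ z, y (gv a wc z) = gv a wc (y z) := fun z => mul_eq hcom z
      have q : ∀ i, i < 3 → PP y m.unpair.1 (PP y m.unpair.1 (PP y m.unpair.1 i)) = i := by
        intro i hi
        have := pow3 h3 (pt m i 0)
        rw [desc hy _ _ _ hi (by omega), desc hy _ _ _ (PP_lt _ _ _) (by omega),
          desc hy _ _ _ (PP_lt _ _ _) (by omega)] at this
        unfold pt at this
        omega
      have c0 := (comm_c hy hc _ s hs 0 (by omega)).1 (by omega)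
      have c1 := (comm_c hy hc _ s hs 1 (by omega)).1 (by omega)
      have c2 := not_congr (comm_c hy hc _ s hs 2 (by omega))
      have q0 := q 0 (by omega)
      have q1 := q 1 (by omega)
      have l2 := PP_lt y m.unpair.1 2
      have p2 : PP y m.unpair.1 2 = 2 := by
        have := c2.1 (by omega)
        omega
      have p0 : PP y m.unpair.1 0 = 0 := by
        by_contra hne
        have e0 : PP y m.unpair.1 0 = 1 := by omega
        rw [e0] at q0
        rcases (by omega : PP y m.unpair.1 1 = 0 ∨ PP y m.unpair.1 1 = 1) with e1 | e1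
        · rw [e1, e0] at q0; omega
        · rw [e1, e1] at q0; omega
      have p1 : PP y m.unpair.1 1 = 1 := by
        by_contra hne
        have e0 : PP y m.unpair.1 1 = 0 := by omega
        rw [e0, p0, p0] at q1
        omega
      have pid : ∀ i, i < 3 → PP y m.unpair.1 i = i := by
        intro i hi
        interval_cases i
        · exact p0
        · exact p1
        · exact p2
      have yid : ∀ i e, i < 3 → e < 2 → y (pt m i e) = pt m i e := by
        intro i e hi he
        have h5 := pow3 h3 (pt m i e)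
        rw [desc hy _ _ _ hi he, pid i hi, desc hy _ _ _ hi (by omega), pid i hi,
          desc hy _ _ _ hi (by omega), pid i hi] at h5
        rw [desc hy _ _ _ hi he, pid i hi]
        have := VV_lt y m i
        unfold pt at h5 ⊢
        omega
      rw [x_pt _ _ _ _ hi he, if_pos h, yid _ _ (ht _ hi) he, yid _ _ hi he, x_pt _ _ _ _ hi he,
        if_pos h]
    · rw [x_pt _ _ _ _ hi he, if_neg h, desc hy _ _ _ hi he, x_pt _ _ _ _ (PP_lt _ _ _) (by omega),
        if_neg h]

end Pool.Agent.X176.SI
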