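import Pool.Agent.X176.SI.BTree

set_option autoImplicit false

open Encodable Denumerable

namespace Pool.Agent.X176.SI

open Pool.Agent Pool.Agent.Helper227 Pool.Agent.Helper227.EN Pool.Agent.Y785.EN

/-- The `Π⁰₂` class given by the relation coded by `B`:
all `Z` such that for all `n` some initial segment `Z ↾ m` satisfies `B (n, Z ↾ m)`. -/
def Pi2 (B : ℕ → Bool) : Set (ℕ → Bool) := {Z | ∀ n : ℕ, ∃ m : ℕ, B (encode (n, pre Z m)) = true}

/-- every nonempty `Π⁰₂` class with a code in `I` has a member in `I` -/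
def IsBeta (I : Set (ℕ → Bool)) : Prop := ∀ B ∈ I, (Pi2 B).Nonempty → ∃ Z ∈ I, Z ∈ Pi2 B

theorem par_zero {s : ℕ → Bool} {ρ : List ℕ} (h : ρ.sum = 0) : par (flL s ρ) = pre s ρ.length := by
  have h0 : ∀ r ∈ ρ, r = 0 := fun r hr => by
    have := List.single_le_sum (l := ρ) (by simp) r hr
    omega
  refine List.ext_getElem (by simp [par]) fun i h1 h2 => ?_
  have h3 : i < ρ.length := by simpa using h2
  rw [getElem_pre]
  simp only [par, List.getElem_map]
  rw [getElem_flL _ _ _ h3, h0 _ (List.getElem_mem h3)]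
  unfold fl
  cases s i <;> simp

section main
variable {B : ℕ → Bool} {x : Equiv.Perm ℕ} {s e : ℕ → Bool}

/-- commuting with the commutator forces no swap -/
theorem no_swap (hx : ∀ p, x p / 3 = bm s e (p / 3)) {n m : ℕ}
    (hB : B (encode (n, pre s m)) = true) {y : Equiv.Perm ℕ} {s' e' : ℕ → Bool}
    (hy : ∀ p, y p / 3 = bm s' e' (p / 3)) (hcom : y * uu B x = uu B x * y) : e' n = false := by
  by_contra he
  rw [Bool.not_eq_false] at he
  have hlt : (e n).toNat < 2 := by cases e n <;> simp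
  obtain ⟨k, hk⟩ : ∃ k, k = mk (n, List.replicate m 0) (e n).toNat := ⟨_, rfl⟩
  have hq : qq k = (n, List.replicate m 0) := by rw [hk]; exact qq_mk _ _ hlt
  have hmod : k % 2 = (e n).toNat := by rw [hk]; exact mk_mod _ _ hlt
  have h1 : (qq k).2.sum = 0 := by rw [hq]; simp
  have h2 : vc B (bm s e k) = 3 := by
    unfold vc
    rw [bm_mod, qq_bm, hq, hmod]
    simp only
    rw [par_zero (by simp), List.length_replicate]
    rw [if_pos ⟨by omega, hB⟩]
  obtain ⟨p, hp, hne⟩ := uu_ne hx k h1 h2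
  apply hne
  have hyk : y p / 3 = bm s' e' k := by rw [hy, hp]
  have htriv : uu B x (y p) = y p := by
    apply uu_triv2 hx
    rw [hyk]
    unfold vc
    rw [bm_mod, bm_mod, qq_bm, hq, hmod, he]
    simp only [Bool.toNat_true]
    rw [if_neg (fun h => by omega)]
  have := mul_eq hcom p
  rw [htriv] at this
  exact y.injective this

theorem r_apply (p : ℕ) : er p = 3 * (p / 3) + tb 3 (p % 3) := hpO_apply _ _ _

theorem f_apply (p : ℕ) : ef p = if (p / 3) % 2 = 0 then er p else p := by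
  rw [r_apply, show ef p = 3 * (p / 3) + tb (vf (p / 3)) (p % 3) from hpO_apply _ _ _]
  unfold vf
  split_ifs
  · rfl
  · rw [tb0 _ (by omega)]; omega

/-- members of the class give witnesses -/
theorem wit {Z : ℕ → Bool} (hZ : Z ∈ Pi2 B) : ∀ y ∈ HH, psi (ex Z) y (ec B) ed er ef := by
  rintro y ⟨s', e', hy⟩ ⟨hr, hu⟩
  have hx : ∀ p, ex Z p / 3 = bm Z O (p / 3) := hp_div _ _ _ _
  have he : ∀ n, e' n = false := by
    intro n
    obtain ⟨m, hm⟩ := hZ n
    exact no_swap hx hm hy hu
  ext p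
  simp only [Equiv.Perm.mul_apply]
  rw [f_apply, f_apply, hy, bm_mod, he]
  simp only [Bool.toNat_false, add_zero, Nat.mod_mod]
  split_ifs
  · exact mul_eq hr p
  · rfl

theorem uu_div (hx : ∀ p, x p / 3 = bm s e (p / 3)) (p : ℕ) : uu B x p / 3 = p / 3 := by
  unfold uu
  simp only [Equiv.Perm.mul_apply _ ed⁻¹, Equiv.Perm.mul_apply _ (x⁻¹ * ec B * x)⁻¹,
    Equiv.Perm.mul_apply _ ed]
  rw [cx_div hx, show ∀ z, ed z / 3 = z / 3 from fun z => hpO_div _ _ z,
    inv_div (cx_div hx)]
  exact inv_div (g := ed) (fun z => hpO_div _ _ z) p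

theorem y_apply (n p : ℕ) : ey n p = 3 * bm O (dl n) (p / 3) + p % 3 := by
  rw [show ey n p = hv O (dl n) v0 p from rfl]
  unfold hv v0
  rw [tb0 _ (by omega)]

/-- a witness codes a member of the class -/
theorem rev (hx : ∀ p, x p / 3 = bm s e (p / 3))
    (hall : ∀ n, psi x (ey n) (ec B) ed er ef) : s ∈ Pi2 B := by
  intro n
  by_contra hno
  push Not at hno
  have hyd : ∀ p, ey n p / 3 = bm O (dl n) (p / 3) := hp_div _ _ _ _
  have htriv : ∀ p, (qq (p / 3)).1 = n → uu B x p = p := by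
    intro p hp
    by_cases h : (qq (p / 3)).2.sum = 0
    · apply uu_triv2 hx
      unfold vc
      rw [qq_bm]
      simp only
      rw [par_zero h, hp, if_neg (fun h' => hno _ h'.2)]
    · exact uu_triv1 hx p h
  have h := hall n ⟨?_, ?_⟩
  · have hk : qq (mk (n, []) 0) = (n, []) := qq_mk _ _ (by omega)
    have h1 := mul_eq h (3 * mk (n, []) 0)
    have e1 : 3 * mk (n, []) 0 / 3 = mk (n, []) 0 := by omega
    have e2 : mk (n, []) 0 % 2 = 0 := mk_mod _ _ (by omega)
    rw [f_apply, f_apply, hyd, bm_mod, e1, e2, hk] at h1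
    simp only [dl, decide_true, Bool.toNat_true, zero_add, if_true] at h1
    rw [if_neg (by omega)] at h1
    have := (ey n).injective h1
    rw [r_apply, show 3 * mk (n, []) 0 % 3 = 0 by omega, tb3.1] at this
    omega
  · ext p
    simp only [Equiv.Perm.mul_apply]
    rw [y_apply, y_apply, r_apply, r_apply]
    have := (tb_spec 3 (by omega) (p % 3) (by omega)).1
    have e1 : (3 * (p / 3) + tb 3 (p % 3)) / 3 = p / 3 := by omega
    have e2 : (3 * (p / 3) + tb 3 (p % 3)) % 3 = tb 3 (p % 3) := by omega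
    have e3 : (3 * bm O (dl n) (p / 3) + p % 3) / 3 = bm O (dl n) (p / 3) := by omega
    have e4 : (3 * bm O (dl n) (p / 3) + p % 3) % 3 = p % 3 := by omega
    rw [e1, e2, e3, e4]
  · change ey n * uu B x = uu B x * ey n
    ext p
    simp only [Equiv.Perm.mul_apply]
    by_cases hp : (qq (p / 3)).1 = n
    · rw [htriv p hp, htriv (ey n p) (by rw [hyd, qq_bm]; exact hp)]
    · have hid : ∀ z, z / 3 = p / 3 → ey n z = z := by
        intro z hz
        rw [y_apply, hz]
        have : bm O (dl n) (p / 3) = p / 3 := by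
          have h3 : bm O (dl n) (p / 3) = bm O O (p / 3) :=
            bm_congr (fun _ _ => rfl) (by simp [dl, O, hp])
          rw [h3]
          exact bm_false _
        rw [this]
        omega
      rw [hid p rfl, hid _ (uu_div hx p)]

end main

/-! ### computability -/

theorem read1 {X : ℕ → Bool} {f : ℕ → ℕ} (hf : ComputableIn {chi X} f) {P : ℕ → ℕ}
    {D : ℕ → ℕ → Bool} (hP : Primrec P) (hD : Primrec₂ D) : TLe (fun i => D i (f (P i))) X := by
  unfold ComputableIn RecursiveIn at hf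
  obtain ⟨G, hG, mG, eG⟩ := recIn_graph hf
  have eG' : ∀ n m, f n = m ↔ ∃ s, G (pre X s, n, m) := by
    intro n m
    rw [← eG]
    simp [eq_comm]
  refine tLe_of_graph (E := fun x => ∃ u : ℕ, G (x.1, P x.2.1, u) ∧ x.2.2 = D x.2.1 u) ?_ ?_
  · refine S1.ex (S1.and (hG.comp ?_) (S1.of_prim ?_))
    · exact (Primrec.fst.comp Primrec.fst).pair ((hP.comp (Primrec.fst.comp (Primrec.snd.comp
        Primrec.fst))).pair Primrec.snd)
    · exact Primrec.eq.comp (Primrec.snd.comp (Primrec.snd.comp Primrec.fst))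
        (hD.comp (Primrec.fst.comp (Primrec.snd.comp Primrec.fst)) Primrec.snd)
  · intro n b
    simp only
    constructor
    · rintro rfl
      obtain ⟨s, hs⟩ := (eG' _ _).1 (rfl : f (P n) = _)
      exact ⟨s, _, hs, rfl⟩
    · rintro ⟨s, u, hu, hb⟩
      rw [hb, (eG' _ _).2 ⟨s, hu⟩]

theorem prim_hp {X s e : ℕ → Bool} {v : ℕ → ℕ} (hs : Primrec s) (he : Primrec e)
    (hvv : Primrec v) (h6 : ∀ k, v k < 6) : ComputableIn {chi X} (hp s e v h6 : ℕ → ℕ) :=
  (prim_hv (α := ℕ) (s := fun _ => s) (e := fun _ => e) (v := fun _ => v) (p := fun p => p)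
    (hs.comp Primrec.snd) (he.comp Primrec.snd) (hvv.comp Primrec.snd) Primrec.id).computableIn

theorem prim_O : Primrec O := Primrec.const false
theorem prim_dl (n : ℕ) : Primrec (dl n) := (Primrec.eq.comp Primrec.id (Primrec.const n)).decide
theorem prim_v0 : Primrec v0 := Primrec.const 0
theorem prim_vr : Primrec vr := Primrec.const 3
theorem prim_vf : Primrec vf := Primrec.ite (Primrec.eq.comp (Primrec.nat_mod.comp Primrec.id
  (Primrec.const 2)) (Primrec.const 0)) (Primrec.const 3) (Primrec.const 0)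
theorem prim_vd : Primrec vd := by
  refine Primrec.ite ?_ (Primrec.const 2) (Primrec.const 0)
  have h : PrimrecPred fun k : ℕ => ∀ r ∈ (qq k).2, r = 0 :=
    PP.all_mem (p := fun _ r => r = 0) (Primrec.eq.comp Primrec.snd (Primrec.const 0))
      (Primrec.snd.comp prim_qq)
  refine h.of_eq fun k => ?_
  simp [List.sum_eq_zero_iff]

theorem comp_ec (B : ℕ → Bool) : ComputableIn {chi B} (ec B : ℕ → ℕ) := by
  have hq : Primrec fun p : ℕ => qq (p / 3) :=
    prim_qq.comp (Primrec.nat_div.comp Primrec.id (Primrec.const 3))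
  have hpar : Primrec par :=
    Primrec.list_map Primrec.id (Primrec.eq.comp (Primrec.nat_mod.comp Primrec.snd
      (Primrec.const 2)) (Primrec.const 1)).decide
  have hcode : Primrec fun p : ℕ => encode ((qq (p / 3)).1, par (qq (p / 3)).2) :=
    Primrec.encode.comp ((Primrec.fst.comp hq).pair (hpar.comp (Primrec.snd.comp hq)))
  let F : List Bool → ℕ → ℕ := fun A p => 3 * (p / 3) +
    tb (if (p / 3) % 2 = 0 ∧ A.getD (encode ((qq (p / 3)).1, par (qq (p / 3)).2)) false = true
      then 3 else 0) (p % 3)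
  have hF : Primrec₂ F := by
    have h3 : Primrec fun x : List Bool × ℕ => x.2 / 3 :=
      Primrec.nat_div.comp Primrec.snd (Primrec.const 3)
    refine Primrec.nat_add.comp (Primrec.nat_mul.comp (Primrec.const 3) h3) (prim_tb.comp
      (Primrec.ite (PrimrecPred.and ?_ ?_) (Primrec.const 3) (Primrec.const 0))
      (Primrec.nat_mod.comp Primrec.snd (Primrec.const 3)))
    · exact Primrec.eq.comp (Primrec.nat_mod.comp h3 (Primrec.const 2)) (Primrec.const 0)
    · exact Primrec.eq.comp ((Primrec.list_getD false).comp Primrec.fst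
        (hcode.comp Primrec.snd)) (Primrec.const true)
  have h := compIn B hF (h := fun p => encode ((qq (p / 3)).1, par (qq (p / 3)).2) + 1)
    (Primrec.succ.comp hcode)
  have e : (fun p : ℕ => F (pre B (encode ((qq (p / 3)).1, par (qq (p / 3)).2) + 1)) p) =
      (ec B : ℕ → ℕ) := by
    funext p
    rw [show ec B p = 3 * (p / 3) + tb (vc B (p / 3)) (p % 3) from hpO_apply _ _ _]
    simp only [F, vc]
    rw [pre_getD _ _ _ _ (Nat.lt_succ_self _)]
  rw [e] at h
  exact h

theorem main_HH {I : Set (ℕ → Bool)} (hI : IsTuringIdeal I) (hb : ¬ IsBeta I) :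
    ∃ c ∈ GI I HH, ∃ d ∈ GI I HH, ∃ r ∈ GI I HH, ∃ f ∈ GI I HH,
      (∃ x ∈ HH, ∀ y ∈ HH, psi x y c d r f) ∧
      ¬ ∃ x ∈ GI I HH, ∀ y ∈ GI I HH, psi x y c d r f := by
  unfold IsBeta at hb
  push Not at hb
  obtain ⟨B, hB, ⟨Z, hZ⟩, hno⟩ := hb
  have hmem : ∀ (s e : ℕ → Bool) (v : ℕ → ℕ) (_ : Primrec s) (_ : Primrec e) (_ : Primrec v)
      (h6 : ∀ k, v k < 6), hp s e v h6 ∈ GI I HH := fun s e v hs he hvv h6 =>
    ⟨hp_mem _ _ _ _, B, hB, prim_hp hs he hvv h6⟩
  refine ⟨ec B, ⟨hp_mem _ _ _ _, B, hB, comp_ec B⟩, ed, hmem _ _ _ prim_O prim_O prim_vd _,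
    er, hmem _ _ _ prim_O prim_O prim_vr _, ef, hmem _ _ _ prim_O prim_O prim_vf _,
    ⟨ex Z, hp_mem _ _ _ _, wit hZ⟩, ?_⟩
  rintro ⟨x, ⟨⟨s, e, hx⟩, X, hX, hxX⟩, hall⟩
  have hs : s ∈ Pi2 B := rev hx fun n => hall _ (hmem _ _ _ prim_O (prim_dl n) prim_v0 _)
  refine hno s (hI.down X hX s ?_) hs
  -- read `s` from `x`
  let P : ℕ → ℕ := fun i => 3 * mk (0, (List.range (i + 1)).map fun _ => 0) 0
  let D : ℕ → ℕ → Bool := fun i u => decide ((qq (u / 3)).2.getD i 0 = 1)
  have hP : Primrec P := by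
    refine Primrec.nat_mul.comp (Primrec.const 3) (Primrec.nat_add.comp (Primrec.nat_mul.comp
      (Primrec.const 2) (Primrec.encode.comp ((Primrec.const 0).pair (Primrec.list_map
      (Primrec.list_range.comp Primrec.succ) (Primrec.const 0).to₂)))) (Primrec.const 0))
  have hD : Primrec₂ D :=
    (Primrec.eq.comp ((Primrec.list_getD 0).comp (Primrec.snd.comp (prim_qq.comp
      (Primrec.nat_div.comp Primrec.snd (Primrec.const 3)))) Primrec.fst) (Primrec.const 1)).decide
  have h := read1 hxX hP hD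
  have e : (fun i => D i (x (P i))) = s := by
    funext i
    simp only [D, P]
    rw [hx, show 3 * mk (0, (List.range (i + 1)).map fun _ => 0) 0 / 3 =
      mk (0, (List.range (i + 1)).map fun _ => 0) 0 by omega, qq_bm, qq_mk _ _ (by omega)]
    simp only
    rw [List.getD_eq_getElem _ _ (by simp), getElem_flL _ _ _ (by simp)]
    simp only [List.getElem_map]
    unfold fl
    cases s i <;> simp
  rw [e] at h
  exact h

end Pool.Agent.X176.SI
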