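import Pool.Agent.X176.SI.Comp

set_option autoImplicit false

open Encodable
open Nat.Partrec (Code)

namespace Pool.Agent.X176.SI

open Pool.Agent Pool.Agent.Helper227 Pool.Agent.Helper227.EN Pool.Agent.Y785.EN

theorem tLe_of_compIn {B X : ℕ → Bool} (h : ComputableIn {chi X} B) : TLe B X := by
  unfold ComputableIn RecursiveIn at h
  refine Nat.RecursiveIn.of_eq h fun n => ?_
  simp [chi]
  cases B n <;> rfl

theorem compIn_of_tLe {B X : ℕ → Bool} (h : TLe B X) : ComputableIn {chi X} B := by
  unfold ComputableIn RecursiveIn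
  refine Nat.RecursiveIn.of_eq h fun n => ?_
  simp [chi]
  cases B n <;> rfl

theorem false_tLe (X : ℕ → Bool) : TLe (fun _ => false) X := by
  refine Nat.RecursiveIn.of_eq (Nat.Primrec.recursiveIn (Primrec.nat_iff.1 (Primrec.const 0)))
    fun n => ?_
  simp [chi]

/-- The halting set. -/
noncomputable def K0 (n : ℕ) : Bool :=
  @decide (((Denumerable.ofNat Code n).eval 0).Dom) (Classical.propDecidable _)

theorem K0_iff (n : ℕ) : K0 n = true ↔ ((Denumerable.ofNat Code n).eval 0).Dom :=
  @decide_eq_true_iff _ (Classical.propDecidable _)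

theorem ce_K0 (X : ℕ → Bool) : CEIn X {n | K0 n = true} := by
  refine ⟨fun n => (Denumerable.ofNat Code n).eval 0, ?_, fun n => K0_iff n⟩
  have : Partrec fun n : ℕ => (Denumerable.ofNat Code n).eval 0 :=
    Nat.Partrec.Code.eval_part.comp (Computable.ofNat Code) (Computable.const 0)
  exact this.recursiveIn

theorem not_K0 : ¬ TLe K0 (fun _ => false) := by
  intro h
  have h1 : Partrec (chi K0) := by
    have h2 : RecursiveIn {fun _ : ℕ => Part.some 0} (chi K0) := h
    exact h2.partrec_of_const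
  have h2 : Computable fun n => (K0 n).toNat := h1
  have h3 : Computable fun c : Code => decide ((K0 (encode c)).toNat = 1) :=
    (Primrec.eq.comp Primrec.id (Primrec.const 1)).decide.to_comp.comp (h2.comp Computable.encode)
  refine ComputablePred.halting_problem 0 ?_
  refine ComputablePred.computable_iff.2 ⟨_, h3, ?_⟩
  funext c
  rw [eq_iff_iff]
  simp only [decide_eq_true_eq]
  have : K0 (encode c) = true ↔ (c.eval 0).Dom := by
    rw [K0_iff]
    simp
  rw [← this]
  cases K0 (encode c) <;> simp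

/-- a table of bits for a set c.e. in `X` -/
theorem exists_table {X K : ℕ → Bool} (h : CEIn X {n | K n = true}) : ∃ B : ℕ → Bool, TLe B X ∧
    (∀ n, B (Nat.pair n 0) = false) ∧ ∀ n, K n = true ↔ ∃ s, B (Nat.pair n s) = true := by
  classical
  obtain ⟨f, hf, hdom⟩ := h
  obtain ⟨G, ⟨q, hq, hqm, hqe⟩, mG, eG⟩ := recIn_graph (RecursiveIn.iff_nat.1 hf)
  let F : List Bool → ℕ → Bool := fun A m => decide (1 ≤ m.unpair.2 ∧
    q (A, m.unpair.1, (m.unpair.2 - 1).unpair.2.unpair.1) (m.unpair.2 - 1).unpair.2.unpair.2)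
  have hF : Primrec₂ F := by
    refine PrimrecPred.decide (PrimrecPred.and ?_ ?_)
    · exact Primrec.nat_le.comp (Primrec.const 1) (Primrec.snd.comp (Primrec.unpair.comp Primrec.snd))
    · have h1 : Primrec fun p : List Bool × ℕ => (p.2.unpair.2 - 1).unpair :=
        Primrec.unpair.comp (Primrec.nat_sub.comp (Primrec.snd.comp (Primrec.unpair.comp
          Primrec.snd)) (Primrec.const 1))
      have h2 : Primrec fun p : List Bool × ℕ => (p.2.unpair.2 - 1).unpair.2.unpair :=
        Primrec.unpair.comp (Primrec.snd.comp h1)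
      exact hq.comp (Primrec.fst.pair ((Primrec.fst.comp (Primrec.unpair.comp Primrec.snd)).pair
        (Primrec.fst.comp h2))) (Primrec.snd.comp h2)
  have hh : Primrec fun m : ℕ => (m.unpair.2 - 1).unpair.1 :=
    Primrec.fst.comp (Primrec.unpair.comp (Primrec.nat_sub.comp (Primrec.snd.comp
      Primrec.unpair) (Primrec.const 1)))
  refine ⟨fun m => F (pre X (m.unpair.2 - 1).unpair.1) m, tLe_of_compIn (compIn X hF hh), ?_, ?_⟩
  · intro n
    simp [F]
  · intro n
    rw [show K n = true ↔ n ∈ {n | K n = true} from Iff.rfl, hdom, Part.dom_iff_mem]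
    constructor
    · rintro ⟨y, hy⟩
      obtain ⟨s, hs⟩ := (eG _ _).1 hy
      obtain ⟨r, hr⟩ := (hqe _).1 hs
      refine ⟨Nat.pair s (Nat.pair y r) + 1, ?_⟩
      simp [F, hr]
    · rintro ⟨s, hs⟩
      simp only [F, decide_eq_true_eq, Nat.unpair_pair] at hs
      exact ⟨_, (eG _ _).2 ⟨_, (hqe _).2 ⟨_, hs.2⟩⟩⟩

end Pool.Agent.X176.SI
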