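import Pool.Agent.X176.SI.Comp

set_option autoImplicit false

open Encodable

namespace Pool.Agent.X176.SI

open Pool.Agent Pool.Agent.Helper227 Pool.Agent.Helper227.EN Pool.Agent.Y785.EN

/-- The string `g(0) g⁻¹(0) ... g(n) g⁻¹(n)`. -/
def str (g : Equiv.Perm ℕ) (n : ℕ) : List ℕ := (List.range (n + 1)).flatMap fun i => [g i, g⁻¹ i]

/-- The tree `T_G` (the initial segments of the strings `g(0) g⁻¹(0) ... g(n) g⁻¹(n)`, `g ∈ G`). -/
def TG (G : Subgroup (Equiv.Perm ℕ)) : Set (List ℕ) := {τ | ∃ g ∈ G, ∃ n, τ <+: str g n}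

/-- The branching function of `T_G`: the number of immediate successors. -/
noncomputable def br (G : Subgroup (Equiv.Perm ℕ)) (τ : List ℕ) : ℕ :=
  {m : ℕ | τ ++ [m] ∈ TG G}.ncard

/-- `deg(T_G) ∈ I`: the tree `T_G` and its branching function are computable in a member of the
ideal `I`. -/
def DegTree (I : Set (ℕ → Bool)) (G : Subgroup (Equiv.Perm ℕ)) : Prop :=
  ∃ X ∈ I, (∃ T : List ℕ → Bool, (∀ τ, T τ = true ↔ τ ∈ TG G) ∧ ComputableIn {chi X} T) ∧
    ComputableIn {chi X} (br G)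

/-- `G` is a profinite subgroup of `S_∞`: closed in the topology of pointwise convergence, with
finite orbits. -/
def IsProfinite (G : Subgroup (Equiv.Perm ℕ)) : Prop :=
  @IsClosed (Equiv.Perm ℕ)
    (TopologicalSpace.induced (fun g : Equiv.Perm ℕ => (g : ℕ → ℕ)) inferInstance)
    (G : Set (Equiv.Perm ℕ)) ∧ ∀ x : ℕ, {y | ∃ g ∈ G, g x = y}.Finite

/-- `G_I`, the elements of `G` whose degree belongs to the ideal `I`. -/
def GI (I : Set (ℕ → Bool)) (G : Subgroup (Equiv.Perm ℕ)) : Set (Equiv.Perm ℕ) :=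
  {g | g ∈ G ∧ ∃ X ∈ I, ComputableIn {chi X} (g : ℕ → ℕ)}

variable {B : ℕ → Bool}

/-- the array of the bits -/
abbrev arr (B : ℕ → Bool) (n s : ℕ) : Bool := B (Nat.pair n s)

theorem act_arr (m : ℕ) : act (arr B) m = B m := by
  unfold act arr; rw [Nat.pair_unpair]

theorem gvL_eq {N x : ℕ} (h : x / 6 < N) {w w' : ℕ → ℕ} (hw : ∀ k ≤ x + 5, w k = w' k) :
    gvL (pre B N) w x = gv (arr B) w' x := by
  unfold gvL gv bt
  have h1 := Nat.unpair_left_le (x / 6)
  rw [pre_getD _ _ _ _ h, act_arr, hw _ (by omega), hw _ (by omega)]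

theorem giL_eq {N x : ℕ} (h : x / 6 < N) {w w' : ℕ → ℕ} (hw : ∀ k ≤ x + 5, w k = w' k)
    (h6 : ∀ k, w' k < 6) : giL (pre B N) w x = gi (arr B) w' x := by
  unfold giL gi bt
  have h1 := Nat.unpair_left_le (x / 6)
  have h2 := (tb_spec (w' (2 * (x / 6).unpair.1)) (h6 _) (x % 6 / 2) (by omega)).2.1
  rw [pre_getD _ _ _ _ h, act_arr, hw (2 * (x / 6).unpair.1) (by omega), hw _ (by omega)]

theorem mem_TG (h0 : ∀ n, arr B n 0 = false) (τ : List ℕ) (N : ℕ) (hN : τ.length < N) :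
    TL (pre B N) τ = true ↔ τ ∈ TG (GG (arr B)) := by
  rw [TL_iff]
  constructor
  · rintro ⟨wl, hwl, hτ⟩
    rw [mem_words] at hwl
    have h6 : ∀ k, wl.getD k 0 < 6 := by
      intro k
      by_cases hk : k < wl.length
      · rw [List.getD_eq_getElem _ _ hk]
        exact hwl.2 _ (List.getElem_mem hk)
      · rw [List.getD_eq_default _ _ (by omega)]
        omega
    refine ⟨gp (arr B) (fun k => wl.getD k 0) h6, gp_mem h0 _ _, τ.length, ?_⟩
    rw [strF_congr (f' := gv (arr B) fun k => wl.getD k 0) (g' := gi (arr B) fun k => wl.getD k 0)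
      (fun i hi => ⟨gvL_eq (by omega) fun _ _ => rfl, giL_eq (by omega) (fun _ _ => rfl) h6⟩)] at hτ
    rw [List.prefix_iff_eq_take]
    exact hτ
  · rintro ⟨g, hg, hn⟩
    obtain ⟨w, hw, rfl⟩ := exists_word hg
    have h1 : τ <+: strF (gv (arr B) w) (gi (arr B) w) τ.length := prefix_strF.1 hn
    refine ⟨(List.range (τ.length + 6)).map w, mem_words.2 ⟨by simp, ?_⟩, ?_⟩
    · intro k hk
      obtain ⟨j, _, rfl⟩ := List.mem_map.1 hk
      exact hw j
    · have hget : ∀ i ≤ τ.length, ∀ k ≤ i + 5,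
          ((List.range (τ.length + 6)).map w).getD k 0 = w k := by
        intro i hi k hk
        rw [List.getD_eq_getElem _ _ (by simp; omega)]
        simp
      rw [strF_congr (f' := gv (arr B) w) (g' := gi (arr B) w)
        (fun i hi => ⟨gvL_eq (by omega) (hget i hi), giL_eq (by omega) (hget i hi) hw⟩)]
      exact List.prefix_iff_eq_take.1 h1

theorem le_of_mem_GG {a : ℕ → ℕ → Bool} {g : Equiv.Perm ℕ} (hg : g ∈ GG a) (i : ℕ) :
    g i ≤ i + 5 := by
  have := (hg i).1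
  omega

theorem lt_of_mem_TG {a : ℕ → ℕ → Bool} {τ : List ℕ} {m : ℕ} (h : τ ++ [m] ∈ TG (GG a)) :
    m < τ.length + 10 := by
  obtain ⟨g, hg, hn⟩ := h
  have h1 : τ ++ [m] <+: strF g (g⁻¹ : Equiv.Perm ℕ) (τ ++ [m]).length := prefix_strF.1 hn
  have h2 : m ∈ strF g (g⁻¹ : Equiv.Perm ℕ) (τ ++ [m]).length := h1.subset (by simp)
  unfold strF at h2
  rw [List.mem_flatMap] at h2
  obtain ⟨i, hi, hm⟩ := h2
  rw [List.mem_range, List.length_append, List.length_singleton] at hi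
  have e1 := le_of_mem_GG hg i
  have e2 := le_of_mem_GG (inv_mem hg) i
  simp only [List.mem_cons, List.not_mem_nil, or_false] at hm
  rcases hm with rfl | rfl
  · omega
  · omega

theorem br_eq (h0 : ∀ n, arr B n 0 = false) (τ : List ℕ) :
    BL (pre B (τ.length + 2)) τ = br (GG (arr B)) τ := by
  unfold BL br
  have : {m : ℕ | τ ++ [m] ∈ TG (GG (arr B))} = ↑(((List.range (τ.length + 10)).filter
      fun m => TL (pre B (τ.length + 2)) (τ ++ [m])).toFinset) := by
    ext m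
    simp only [Set.mem_ofPred_eq, List.coe_toFinset, List.mem_filter, List.mem_range]
    rw [mem_TG h0 _ _ (by simp)]
    exact ⟨fun h => ⟨lt_of_mem_TG h, h⟩, fun h => h.2⟩
  rw [this, Set.ncard_coe_finset, List.toFinset_card_of_nodup (List.nodup_range.filter _)]

theorem degTree {I : Set (ℕ → Bool)} (hB : B ∈ I) (h0 : ∀ n, arr B n 0 = false) :
    DegTree I (GG (arr B)) := by
  refine ⟨B, hB, ⟨fun τ => TL (pre B (τ.length + 1)) τ, fun τ => mem_TG h0 _ _ (by omega), ?_⟩, ?_⟩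
  · exact compIn B prim_TL (h := fun τ => τ.length + 1) (Primrec.succ.comp Primrec.list_length)
  · have h := compIn B prim_BL (h := fun τ => τ.length + 2)
      (Primrec.succ.comp (Primrec.succ.comp Primrec.list_length))
    have e : (fun τ : List ℕ => BL (pre B (τ.length + 2)) τ) = br (GG (arr B)) :=
      funext fun τ => br_eq h0 τ
    rw [e] at h
    exact h

theorem comp_gp {W : ℕ → ℕ} (hW : Primrec W) (h6 : ∀ k, W k < 6) :
    ComputableIn {chi B} (gp (arr B) W h6 : ℕ → ℕ) := by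
  have h := compIn B (F := fun A x => gvL A W x) (prim_gvL Primrec.fst (hW.comp Primrec.snd)
    Primrec.snd) (h := fun x => x / 6 + 1)
    (Primrec.succ.comp (Primrec.nat_div.comp Primrec.id (Primrec.const 6)))
  have e : (fun x : ℕ => gvL (pre B (x / 6 + 1)) W x) = (gp (arr B) W h6 : ℕ → ℕ) := by
    funext x
    exact gvL_eq (by omega) fun _ _ => rfl
  rw [e] at h
  exact h

theorem prim_wc : Primrec wc := by
  unfold wc
  refine Primrec.ite (PrimrecPred.and ?_ ?_) (Primrec.const 1) (Primrec.const 0)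
  · exact Primrec.eq.comp (Primrec.nat_mod.comp Primrec.id (Primrec.const 2)) (Primrec.const 1)
  · exact Primrec.nat_lt.comp (Primrec.nat_mod.comp (Primrec.nat_div.comp Primrec.id
      (Primrec.const 2)) (Primrec.const 3)) (Primrec.const 2)

theorem prim_wd : Primrec wd := by
  unfold wd
  refine Primrec.ite (PrimrecPred.and ?_ ?_) (Primrec.const 1) (Primrec.const 0)
  · exact Primrec.eq.comp (Primrec.nat_mod.comp Primrec.id (Primrec.const 2)) (Primrec.const 1)
  · exact Primrec.eq.comp (Primrec.nat_mod.comp (Primrec.nat_div.comp Primrec.id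
      (Primrec.const 2)) (Primrec.const 3)) (Primrec.const 0)

theorem prim_wr (n : ℕ) : Primrec (wr n) := by
  unfold wr
  exact Primrec.ite (Primrec.eq.comp Primrec.id (Primrec.const _)) (Primrec.const 3)
    (Primrec.const 0)

theorem isProfinite (a : ℕ → ℕ → Bool) : IsProfinite (GG a) := by
  constructor
  · rw [isClosed_induced_iff]
    refine ⟨⋂ x, {f : ℕ → ℕ | f x / 6 = x / 6 ∧ ov (f x) = f (ov x) ∧
      (act a (x / 6) = false → f x % 2 = x % 2)}, isClosed_iInter fun x => ?_, ?_⟩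
    · have hc : Continuous fun f : ℕ → ℕ => (f x, f (ov x)) := by fun_prop
      exact (isClosed_discrete {p : ℕ × ℕ | p.1 / 6 = x / 6 ∧ ov p.1 = p.2 ∧
        (act a (x / 6) = false → p.1 % 2 = x % 2)}).preimage hc
    · ext g
      simp only [Set.mem_preimage, Set.mem_iInter, Set.mem_ofPred_eq, SetLike.mem_coe]
      rfl
  · intro x
    refine (Set.finite_Iic (x + 5)).subset ?_
    rintro y ⟨g, hg, rfl⟩
    exact le_of_mem_GG hg x

/-- reading the set from a member of the group -/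
theorem read {X : ℕ → Bool} {f : ℕ → ℕ} (hf : ComputableIn {chi X} f) {K : ℕ → Bool}
    (hK : ∀ n, K n = true ↔ PP f n 0 = 1 ∧ PP f n 1 = 0) : TLe K X := by
  unfold ComputableIn RecursiveIn at hf
  obtain ⟨G, hG, mG, eG⟩ := recIn_graph hf
  have eG' : ∀ n m, f n = m ↔ ∃ s, G (pre X s, n, m) := by
    intro n m
    rw [← eG]
    simp [eq_comm]
  have hbit : PrimrecPred fun x : (List Bool × ℕ × Bool) × ℕ × ℕ =>
      x.1.2.2 = decide (x.2.1 % 6 / 2 = 1 ∧ x.2.2 % 6 / 2 = 0) := by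
    refine Primrec.eq.comp (Primrec.snd.comp (Primrec.snd.comp Primrec.fst)) ?_
    refine PrimrecPred.decide (PrimrecPred.and ?_ ?_)
    · exact Primrec.eq.comp (Primrec.nat_div.comp (Primrec.nat_mod.comp (Primrec.fst.comp
        Primrec.snd) (Primrec.const 6)) (Primrec.const 2)) (Primrec.const 1)
    · exact Primrec.eq.comp (Primrec.nat_div.comp (Primrec.nat_mod.comp (Primrec.snd.comp
        Primrec.snd) (Primrec.const 6)) (Primrec.const 2)) (Primrec.const 0)
  have hp : Primrec fun x : (List Bool × ℕ × Bool) × ℕ × ℕ => 6 * Nat.pair x.1.2.1 0 :=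
    Primrec.nat_mul.comp (Primrec.const 6) (Primrec₂.natPair.comp
      (Primrec.fst.comp (Primrec.snd.comp Primrec.fst)) (Primrec.const 0))
  refine tLe_of_graph (E := fun x => ∃ u : ℕ × ℕ, G (x.1, 6 * Nat.pair x.2.1 0, u.1) ∧
    G (x.1, 6 * Nat.pair x.2.1 0 + 2, u.2) ∧ x.2.2 = decide (u.1 % 6 / 2 = 1 ∧ u.2 % 6 / 2 = 0))
    ?_ ?_
  · refine S1.ex (S1.and (hG.comp ?_) (S1.and (hG.comp ?_) (S1.of_prim hbit)))
    · exact (Primrec.fst.comp Primrec.fst).pair (hp.pair (Primrec.fst.comp Primrec.snd))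
    · exact (Primrec.fst.comp Primrec.fst).pair ((Primrec.nat_add.comp hp (Primrec.const 2)).pair
        (Primrec.snd.comp Primrec.snd))
  · intro n b
    have hKn : K n = decide (f (6 * Nat.pair n 0) % 6 / 2 = 1 ∧
        f (6 * Nat.pair n 0 + 2) % 6 / 2 = 0) := by
      rw [Bool.eq_iff_iff, hK, decide_eq_true_eq]
      rfl
    simp only
    constructor
    · rintro rfl
      obtain ⟨s, hs⟩ := (eG' _ _).1 (rfl : f (6 * Nat.pair n 0) = _)
      obtain ⟨t, ht⟩ := (eG' _ _).1 (rfl : f (6 * Nat.pair n 0 + 2) = _)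
      exact ⟨max s t, (_, _), mG _ _ _ _ (pre_prefix _ (le_max_left _ _)) hs,
        mG _ _ _ _ (pre_prefix _ (le_max_right _ _)) ht, hKn⟩
    · rintro ⟨s, ⟨u, v⟩, hu, hv, hb⟩
      simp only at hu hv hb
      have e1 := (eG' _ _).2 ⟨s, hu⟩
      have e2 := (eG' _ _).2 ⟨s, hv⟩
      rw [hKn, hb, e1, e2]

/-- The main theorem for a table of bits. -/
theorem main_arr {I : Set (ℕ → Bool)} (hB : B ∈ I) (h0 : ∀ n, arr B n 0 = false)
    (hdown : ∀ X ∈ I, ∀ Y, TLe Y X → Y ∈ I)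
    {K : ℕ → Bool} (hK : ∀ n, K n = true ↔ ∃ s, arr B n s = true) (hKI : K ∉ I) :
    ∃ c ∈ GI I (GG (arr B)), ∃ d ∈ GI I (GG (arr B)),
      (∃ x ∈ GG (arr B), ∀ y ∈ GG (arr B), phi x y c d) ∧
      ¬ ∃ x ∈ GI I (GG (arr B)), ∀ y ∈ GI I (GG (arr B)), phi x y c d := by
  have hmem : ∀ (W : ℕ → ℕ) (hW : Primrec W) (h6 : ∀ k, W k < 6),
      gp (arr B) W h6 ∈ GI I (GG (arr B)) := fun W hW h6 => ⟨gp_mem h0 _ _, B, hB, comp_gp hW h6⟩
  refine ⟨_, hmem wc prim_wc wc_lt, _, hmem wd prim_wd wd_lt,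
    ⟨_, gp_mem h0 (wx K) (wx_lt K), witness K hK⟩, ?_⟩
  rintro ⟨x, ⟨hx, X, hX, hxX⟩, hall⟩
  have hone := hall _ (hmem wc prim_wc wc_lt)
  refine hKI (hdown X hX K (read hxX fun n => ?_))
  constructor
  · intro hn
    obtain ⟨s, hs⟩ := (hK n).1 hn
    exact forced hx (fun z => mul_eq hone.1 z) (fun z => mul_eq hone.2.1 z) n s hs
  · intro hn
    by_contra hno
    have hns : ∀ s, arr B n s = false := by
      intro s
      by_contra hs
      exact hno ((hK n).2 ⟨s, by simpa using hs⟩)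
    obtain ⟨r1, r2, r3⟩ := rot n hns
    have := (hall _ (hmem (wr n) (prim_wr n) (wr_lt n))).2.2 ⟨r1, r2⟩
    exact r3 x hx this hn

end Pool.Agent.X176.SI
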