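import Pool.Agent.X176.SI.Bm
import Pool.Agent.X176.SI.Tree
import Pool.Agent.X176.SI.Jump

set_option autoImplicit false

open Encodable Denumerable

namespace Pool.Agent.X176.SI

open Pool.Agent Pool.Agent.Helper227 Pool.Agent.Helper227.EN Pool.Agent.Y785.EN

section prim
variable {α : Type*} [Primcodable α]

theorem prim_qq : Primrec qq :=
  (Primrec.ofNat (ℕ × List ℕ)).comp (Primrec.nat_div.comp Primrec.id (Primrec.const 2))

theorem prim_fl {b : α → Bool} {r : α → ℕ} (hb : Primrec b) (hr : Primrec r) :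
    Primrec fun a => fl (b a) (r a) :=
  Primrec.ite (Primrec.eq.comp hb (Primrec.const true))
    (Primrec.nat_sub.comp (Primrec.succ.comp hr) (Primrec.nat_mul.comp (Primrec.const 2)
      (Primrec.nat_mod.comp hr (Primrec.const 2)))) hr

theorem prim_bm {s e : α → ℕ → Bool} {k : α → ℕ} (hs : Primrec₂ s) (he : Primrec₂ e)
    (hk : Primrec k) : Primrec fun a => bm (s a) (e a) (k a) := by
  have hq : Primrec fun a => qq (k a) := prim_qq.comp hk
  have hfl : Primrec fun a => flL (s a) (qq (k a)).2 := by
    refine Primrec.list_map (Primrec.list_range.comp (Primrec.list_length.comp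
      (Primrec.snd.comp hq))) ?_
    exact prim_fl (hs.comp Primrec.fst Primrec.snd)
      ((Primrec.list_getD 0).comp (Primrec.snd.comp (hq.comp Primrec.fst)) Primrec.snd)
  have hb : Primrec fun a => (e a (qq (k a)).1).toNat := by
    have h1 : Primrec fun a => e a (qq (k a)).1 := he.comp Primrec.id (Primrec.fst.comp hq)
    exact (Primrec.ite (Primrec.eq.comp h1 (Primrec.const true)) (Primrec.const 1)
      (Primrec.const 0)).of_eq fun a => by cases e a (qq (k a)).1 <;> rfl
  exact Primrec.nat_add.comp (Primrec.nat_mul.comp (Primrec.const 2) (Primrec.encode.comp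
    ((Primrec.fst.comp hq).pair hfl))) (Primrec.nat_mod.comp (Primrec.nat_add.comp
      (Primrec.nat_mod.comp hk (Primrec.const 2)) hb) (Primrec.const 2))

theorem prim_hv {s e : α → ℕ → Bool} {v : α → ℕ → ℕ} {p : α → ℕ} (hs : Primrec₂ s)
    (he : Primrec₂ e) (hvv : Primrec₂ v) (hpp : Primrec p) :
    Primrec fun a => hv (s a) (e a) (v a) (p a) := by
  have h3 : Primrec fun a => p a / 3 := Primrec.nat_div.comp hpp (Primrec.const 3)
  exact Primrec.nat_add.comp (Primrec.nat_mul.comp (Primrec.const 3) (prim_bm hs he h3))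
    (prim_tb.comp (hvv.comp Primrec.id h3) (Primrec.nat_mod.comp hpp (Primrec.const 3)))

theorem prim_hi {s e : α → ℕ → Bool} {v : α → ℕ → ℕ} {p : α → ℕ} (hs : Primrec₂ s)
    (he : Primrec₂ e) (hvv : Primrec₂ v) (hpp : Primrec p) :
    Primrec fun a => hi (s a) (e a) (v a) (p a) := by
  have h3 : Primrec fun a => p a / 3 := Primrec.nat_div.comp hpp (Primrec.const 3)
  exact Primrec.nat_add.comp (Primrec.nat_mul.comp (Primrec.const 3) (prim_bm hs he h3))
    (prim_ti.comp (hvv.comp Primrec.id (prim_bm hs he h3))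
      (Primrec.nat_mod.comp hpp (Primrec.const 3)))

end prim

/-! ### bounds -/

/-- a bound for the base map -/
def bd (k : ℕ) : ℕ := mk ((qq k).1, (qq k).2.map Nat.succ) 1

theorem pair_mono {a b c d : ℕ} (h1 : a ≤ c) (h2 : b ≤ d) : Nat.pair a b ≤ Nat.pair c d := by
  rcases h1.lt_or_eq with h1 | rfl
  · rcases h2.lt_or_eq with h2 | rfl
    · exact ((Nat.pair_lt_pair_left _ h1).trans (Nat.pair_lt_pair_right _ h2)).le
    · exact (Nat.pair_lt_pair_left _ h1).le
  · rcases h2.lt_or_eq with h2 | rfl
    · exact (Nat.pair_lt_pair_right _ h2).le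
    · exact le_rfl

theorem encode_list_mono : ∀ {l l' : List ℕ}, List.Forall₂ (· ≤ ·) l l' → encode l ≤ encode l'
  | _, _, .nil => le_rfl
  | _, _, .cons h t => by
    rw [encode_list_cons, encode_list_cons]
    exact Nat.succ_le_succ (pair_mono h (encode_list_mono t))

theorem mk_mono {q q' : ℕ × List ℕ} (h1 : q.1 ≤ q'.1) (h2 : encode q.2 ≤ encode q'.2) {h : ℕ}
    (hh : h < 2) : mk q h ≤ mk q' 1 := by
  have : encode q ≤ encode q' := by
    obtain ⟨a, b⟩ := q
    obtain ⟨a', b'⟩ := q'
    rw [encode_prod_val, encode_prod_val]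
    exact pair_mono h1 h2
  unfold mk
  omega

theorem fl_le (b : Bool) (r : ℕ) : fl b r ≤ r + 1 := by
  unfold fl; split_ifs <;> omega

theorem bm_le (s e : ℕ → Bool) (k : ℕ) : bm s e k ≤ bd k := by
  refine mk_mono (q := ((qq k).1, flL s (qq k).2)) (q' := ((qq k).1, (qq k).2.map Nat.succ))
    le_rfl (encode_list_mono ?_) (Nat.mod_lt _ (by omega))
  rw [List.forall₂_iff_get]
  refine ⟨by simp, fun i h1 h2 => ?_⟩
  have h3 : i < (qq k).2.length := by simpa using h2
  simp only [List.get_eq_getElem, List.getElem_map]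
  rw [getElem_flL _ _ _ h3]
  exact fl_le _ _

theorem le_bd (k : ℕ) : k ≤ bd k := by
  have := bm_le (fun _ => false) (fun _ => false) k
  rwa [bm_false] at this

theorem n_le (k : ℕ) : (qq k).1 ≤ k := by
  have h : encode (qq k) = k / 2 := encode_ofNat _
  have : (qq k).1 ≤ encode (qq k) := by
    rw [encode_prod_val]
    exact Nat.left_le_pair _ _
  omega

theorem len_le (k : ℕ) : (qq k).2.length ≤ k := by
  have h : encode (qq k) = k / 2 := encode_ofNat _
  have h1 : encode (qq k).2 ≤ encode (qq k) := by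
    rw [encode_prod_val]
    exact Nat.right_le_pair _ _
  have := length_le_encode (qq k).2
  omega

/-- a length bound for the words -/
def LB : ℕ → ℕ
  | 0 => 3 * bd 0 + 3
  | n + 1 => LB n + (3 * bd (n + 1) + 3)

theorem le_LB {k N : ℕ} (h : k ≤ N) : 3 * bd k + 3 ≤ LB N := by
  induction N with
  | zero => obtain rfl : k = 0 := by omega
            exact le_rfl
  | succ N ih =>
    rcases Nat.le_succ_iff.1 h with h | rfl
    · exact (ih h).trans (Nat.le_add_right _ _)
    · exact Nat.le_add_left _ _

theorem prim_bd : Primrec bd :=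
  Primrec.nat_add.comp (Primrec.nat_mul.comp (Primrec.const 2) (Primrec.encode.comp
    ((Primrec.fst.comp prim_qq).pair (Primrec.list_map (Primrec.snd.comp prim_qq)
      (Primrec.succ.comp Primrec.snd))))) (Primrec.const 1)

theorem prim_LB : Primrec LB := by
  have h : Primrec (fun n : ℕ => (Nat.rec (3 * bd 0 + 3) (fun m l => l + (3 * bd (m + 1) + 3)) n :
      ℕ)) := by
    refine Primrec.nat_rec₁ _ ?_
    exact Primrec.nat_add.comp Primrec.snd (Primrec.nat_add.comp (Primrec.nat_mul.comp
      (Primrec.const 3) (prim_bd.comp (Primrec.succ.comp Primrec.fst))) (Primrec.const 3))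
  refine h.of_eq fun n => ?_
  induction n with
  | zero => rfl
  | succ n ih => simp only [LB]; rw [← ih]

/-! ### words -/

def sW (w : List ℕ) (i : ℕ) : Bool := decide (w.getD (3 * i) 0 = 1)
def eW (w : List ℕ) (i : ℕ) : Bool := decide (w.getD (3 * i + 1) 0 = 1)
def vW (w : List ℕ) (i : ℕ) : ℕ := w.getD (3 * i + 2) 0

theorem prim_sW : Primrec₂ sW :=
  (Primrec.eq.comp ((Primrec.list_getD 0).comp Primrec.fst (Primrec.nat_mul.comp (Primrec.const 3)
    Primrec.snd)) (Primrec.const 1)).decide
theorem prim_eW : Primrec₂ eW :=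
  (Primrec.eq.comp ((Primrec.list_getD 0).comp Primrec.fst (Primrec.succ.comp
    (Primrec.nat_mul.comp (Primrec.const 3) Primrec.snd))) (Primrec.const 1)).decide
theorem prim_vW : Primrec₂ vW :=
  (Primrec.list_getD 0).comp Primrec.fst (Primrec.nat_add.comp
    (Primrec.nat_mul.comp (Primrec.const 3) Primrec.snd) (Primrec.const 2))

theorem vW_lt {n : ℕ} {w : List ℕ} (hw : w ∈ words n) (k : ℕ) : vW w k < 6 := by
  rw [mem_words] at hw
  unfold vW
  by_cases hk : 3 * k + 2 < w.length
  · rw [List.getD_eq_getElem _ _ hk]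
    exact hw.2 _ (List.getElem_mem hk)
  · rw [List.getD_eq_default _ _ (by omega)]
    omega

open Classical in
/-- the tree -/
noncomputable def TH (τ : List ℕ) : Bool :=
  decide (∃ w ∈ words (LB τ.length), τ = (strF (hv (sW w) (eW w) (vW w))
    (hi (sW w) (eW w) (vW w)) τ.length).take τ.length)

theorem TH_iff (τ : List ℕ) : TH τ = true ↔ ∃ w ∈ words (LB τ.length),
    τ = (strF (hv (sW w) (eW w) (vW w)) (hi (sW w) (eW w) (vW w)) τ.length).take τ.length := by
  unfold TH
  exact decide_eq_true_iff

theorem prim_TH : Primrec TH := by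
  have h : PrimrecPred fun τ : List ℕ => ∃ w ∈ words (LB τ.length),
      τ = (strF (hv (sW w) (eW w) (vW w)) (hi (sW w) (eW w) (vW w)) τ.length).take τ.length := ?_
  · have h2 := h.decide
    refine Primrec.of_eq h2 fun x => ?_
    unfold TH
    congr
  refine PP.ex_mem (α := List ℕ) (f := fun τ => words (LB τ.length))
    (p := fun τ w => τ = (strF (hv (sW w) (eW w) (vW w)) (hi (sW w) (eW w) (vW w))
      τ.length).take τ.length) ?_ (prim_words.comp (prim_LB.comp Primrec.list_length))
  refine Primrec.eq.comp Primrec.fst (Primrec.list_take.comp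
    (Primrec.list_length.comp Primrec.fst) ?_)
  refine Primrec.list_flatMap (Primrec.list_range.comp (Primrec.succ.comp
    (Primrec.list_length.comp Primrec.fst))) ?_
  have hw : Primrec fun p : (List ℕ × List ℕ) × ℕ => p.1.2 := Primrec.snd.comp Primrec.fst
  refine Primrec.list_cons.comp ?_ (Primrec.list_cons.comp ?_ (Primrec.const []))
  · exact prim_hv (prim_sW.comp (hw.comp Primrec.fst) Primrec.snd)
      (prim_eW.comp (hw.comp Primrec.fst) Primrec.snd)
      (prim_vW.comp (hw.comp Primrec.fst) Primrec.snd) Primrec.snd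
  · exact prim_hi (prim_sW.comp (hw.comp Primrec.fst) Primrec.snd)
      (prim_eW.comp (hw.comp Primrec.fst) Primrec.snd)
      (prim_vW.comp (hw.comp Primrec.fst) Primrec.snd) Primrec.snd

theorem bm_congr {s e s' e' : ℕ → Bool} {k : ℕ} (hs : ∀ i < (qq k).2.length, s i = s' i)
    (he : e (qq k).1 = e' (qq k).1) : bm s e k = bm s' e' k := by
  unfold bm
  rw [he]
  congr 2
  refine List.ext_getElem (by simp) fun i h1 h2 => ?_
  have h3 : i < (qq k).2.length := by simpa using h1
  rw [getElem_flL _ _ _ h3, getElem_flL _ _ _ h3, hs i h3]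

theorem mem_TH (τ : List ℕ) : TH τ = true ↔ τ ∈ TG HH := by
  rw [TH_iff]
  constructor
  · rintro ⟨w, hw, hτ⟩
    refine ⟨hp (sW w) (eW w) (vW w) (vW_lt hw), hp_mem _ _ _ _, τ.length, ?_⟩
    rw [List.prefix_iff_eq_take]
    exact hτ
  · rintro ⟨g, hg, hn⟩
    obtain ⟨s, e, v, hv6, rfl⟩ := exists_hp hg
    have h1 : τ <+: strF (hv s e v) (hi s e v) τ.length := prefix_strF.1 hn
    set L := LB τ.length with hL
    let u : ℕ → ℕ := fun t => if t % 3 = 0 then (s (t / 3)).toNat else
      if t % 3 = 1 then (e (t / 3)).toNat else v (t / 3)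
    have hget : ∀ t < L, ((List.range L).map u).getD t 0 = u t := by
      intro t ht
      rw [List.getD_eq_getElem _ _ (by simpa using ht)]
      simp
    have hsW : ∀ i, 3 * i < L → sW ((List.range L).map u) i = s i := by
      intro i hi
      simp only [sW, hget _ hi, u]
      rw [if_pos (by omega), show 3 * i / 3 = i by omega]
      cases s i <;> simp
    have heW : ∀ i, 3 * i + 1 < L → eW ((List.range L).map u) i = e i := by
      intro i hi
      simp only [eW, hget _ hi, u]
      rw [if_neg (by omega), if_pos (by omega), show (3 * i + 1) / 3 = i by omega]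
      cases e i <;> simp
    have hvW : ∀ i, 3 * i + 2 < L → vW ((List.range L).map u) i = v i := by
      intro i hi
      unfold vW
      rw [hget _ hi]
      simp only [u]
      rw [if_neg (by omega), if_neg (by omega), show (3 * i + 2) / 3 = i by omega]
    have hbm : ∀ k ≤ τ.length, bm (sW ((List.range L).map u)) (eW ((List.range L).map u)) k =
        bm s e k := by
      intro k hk
      have hL1 := le_LB hk
      have hL2 := le_bd k
      have hL3 := n_le k
      have hL4 := len_le k
      exact bm_congr (fun i hi => hsW i (by omega)) (heW _ (by omega))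
    refine ⟨(List.range L).map u, mem_words.2 ⟨by simp, ?_⟩, ?_⟩
    · intro k hk
      obtain ⟨j, _, rfl⟩ := List.mem_map.1 hk
      simp only [u]
      split_ifs
      · cases s (j / 3) <;> simp
      · cases e (j / 3) <;> simp
      · exact hv6 _
    · rw [strF_congr (f' := hv s e v) (g' := hi s e v) (fun p hp => ?_)]
      · exact List.prefix_iff_eq_take.1 h1
      · have hk : p / 3 ≤ τ.length := by omega
        have hL1 := le_LB hk
        have hL2 := le_bd (p / 3)
        have hL3 := bm_le s e (p / 3)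
        unfold hv hi
        rw [hbm _ hk, hvW _ (by omega), hvW _ (by omega)]
        exact ⟨rfl, rfl⟩

theorem val_lt {g : Equiv.Perm ℕ} (hg : g ∈ HH) {i N : ℕ} (h : i ≤ N) : g i < LB N := by
  obtain ⟨s, e, hg⟩ := hg
  have h1 := hg i
  have h2 := bm_le s e (i / 3)
  have h3 := le_LB (show i / 3 ≤ N by omega)
  omega

theorem lt_of_mem_TH {τ : List ℕ} {m : ℕ} (h : τ ++ [m] ∈ TG HH) : m < LB (τ.length + 2) := by
  obtain ⟨g, hg, hn⟩ := h
  have h1 : τ ++ [m] <+: strF g (g⁻¹ : Equiv.Perm ℕ) (τ ++ [m]).length := prefix_strF.1 hn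
  have h2 : m ∈ strF g (g⁻¹ : Equiv.Perm ℕ) (τ ++ [m]).length := h1.subset (by simp)
  unfold strF at h2
  rw [List.mem_flatMap] at h2
  obtain ⟨i, hi, hm⟩ := h2
  rw [List.mem_range, List.length_append, List.length_singleton] at hi
  simp only [List.mem_cons, List.not_mem_nil, or_false] at hm
  rcases hm with rfl | rfl
  · exact val_lt hg (by omega)
  · exact val_lt (inv_mem hg) (by omega)

/-- the branching function -/
noncomputable def BH (τ : List ℕ) : ℕ :=
  ((List.range (LB (τ.length + 2))).filter fun m => TH (τ ++ [m])).length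

theorem prim_BH : Primrec BH := by
  have h : Primrec fun (τ : List ℕ) =>
      ((List.range (LB (τ.length + 2))).filterMap fun m => if TH (τ ++ [m]) = true then some m
        else none).length := by
    refine Primrec.list_length.comp (Primrec.listFilterMap (Primrec.list_range.comp
      (prim_LB.comp (Primrec.succ.comp (Primrec.succ.comp Primrec.list_length)))) ?_)
    refine Primrec.ite (Primrec.eq.comp (prim_TH.comp
      (Primrec.list_append.comp Primrec.fst (Primrec.list_cons.comp Primrec.snd
        (Primrec.const [])))) (Primrec.const true)) (Primrec.option_some.comp Primrec.snd)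
        (Primrec.const none)
  refine h.of_eq fun τ => ?_
  unfold BH
  rw [← List.filterMap_eq_filter]
  congr 2

theorem brH_eq (τ : List ℕ) : BH τ = br HH τ := by
  unfold BH br
  have : {m : ℕ | τ ++ [m] ∈ TG HH} = ↑(((List.range (LB (τ.length + 2))).filter
      fun m => TH (τ ++ [m])).toFinset) := by
    ext m
    simp only [Set.mem_ofPred_eq, List.coe_toFinset, List.mem_filter, List.mem_range]
    rw [mem_TH]
    exact ⟨fun h => ⟨lt_of_mem_TH h, h⟩, fun h => h.2⟩
  rw [this, Set.ncard_coe_finset, List.toFinset_card_of_nodup (List.nodup_range.filter _)]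

/-- The tree of the universal group is computable, with computable branching function. -/
theorem computable_tree : (∃ T : List ℕ → Bool, (∀ τ, T τ = true ↔ τ ∈ TG HH) ∧ Computable T) ∧
    Computable (br HH) := by
  refine ⟨⟨TH, mem_TH, prim_TH.to_comp⟩, ?_⟩
  have : BH = br HH := funext brH_eq
  rw [← this]
  exact prim_BH.to_comp

/-! ### Closedness -/

theorem cont_of_dep {F : (ℕ → Bool) × (ℕ → Bool) → ℕ} {L : ℕ}
    (h : ∀ y z, (∀ i < L, y.1 i = z.1 i) → (∀ i < L, y.2 i = z.2 i) → F y = F z) :
    Continuous F := by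
  rw [continuous_discrete_rng]
  intro b
  rw [isOpen_iff_mem_nhds]
  intro y hy
  have h1 : {z : (ℕ → Bool) × (ℕ → Bool) | (∀ i < L, z.1 i = y.1 i) ∧ ∀ i < L, z.2 i = y.2 i} ∈
      nhds y := by
    have hopen : IsOpen {z : (ℕ → Bool) × (ℕ → Bool) | (∀ i < L, z.1 i = y.1 i) ∧
        ∀ i < L, z.2 i = y.2 i} := by
      have : {z : (ℕ → Bool) × (ℕ → Bool) | (∀ i < L, z.1 i = y.1 i) ∧ ∀ i < L, z.2 i = y.2 i} =
          (⋂ i ∈ Finset.range L, {z | z.1 i = y.1 i}) ∩
          (⋂ i ∈ Finset.range L, {z | z.2 i = y.2 i}) := by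
        ext z; simp
      rw [this]
      refine IsOpen.inter ?_ ?_
      · refine isOpen_biInter_finset fun i _ => ?_
        have hc : Continuous fun z : (ℕ → Bool) × (ℕ → Bool) => z.1 i := by fun_prop
        exact (isOpen_discrete {b : Bool | b = y.1 i}).preimage hc
      · refine isOpen_biInter_finset fun i _ => ?_
        have hc : Continuous fun z : (ℕ → Bool) × (ℕ → Bool) => z.2 i := by fun_prop
        exact (isOpen_discrete {b : Bool | b = y.2 i}).preimage hc
    exact hopen.mem_nhds (by simp)
  refine Filter.mem_of_superset h1 fun z hz => ?_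
  simp only [Set.mem_preimage, Set.mem_singleton_iff] at hy ⊢
  rw [← hy]
  exact h z y hz.1 hz.2

theorem isProfiniteH : IsProfinite HH := by
  constructor
  · rw [isClosed_induced_iff]
    have hcl : IsClosed {x : (ℕ → ℕ) × ((ℕ → Bool) × (ℕ → Bool)) |
        ∀ p, x.1 p / 3 = bm x.2.1 x.2.2 (p / 3)} := by
      rw [Set.ofPred_forall]
      refine isClosed_iInter fun p => ?_
      refine isClosed_eq ?_ ?_
      · have h1 : Continuous fun x : (ℕ → ℕ) × ((ℕ → Bool) × (ℕ → Bool)) => x.1 p := by fun_prop
        exact (continuous_of_discreteTopology (f := fun n : ℕ => n / 3)).comp h1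
      · refine (cont_of_dep (F := fun y => bm y.1 y.2 (p / 3)) (L := p / 3 + 1) ?_).comp
          continuous_snd
        intro y z h1 h2
        have hL3 := n_le (p / 3)
        have hL4 := len_le (p / 3)
        exact bm_congr (fun i hi => h1 i (by omega)) (h2 _ (by omega))
    refine ⟨Prod.fst '' {x : (ℕ → ℕ) × ((ℕ → Bool) × (ℕ → Bool)) |
        ∀ p, x.1 p / 3 = bm x.2.1 x.2.2 (p / 3)}, ?_, ?_⟩
    · exact isClosedMap_fst_of_compactSpace _ hcl
    · ext g
      simp only [Set.mem_preimage, Set.mem_image, Set.mem_ofPred_eq, Prod.exists, SetLike.mem_coe]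
      constructor
      · rintro ⟨f, s, e, h, hf⟩
        subst hf
        exact ⟨s, e, h⟩
      · rintro ⟨s, e, h⟩
        exact ⟨_, s, e, h, rfl⟩
  · intro x
    refine (Set.finite_Iio (LB x)).subset ?_
    rintro y ⟨g, hg, rfl⟩
    exact val_lt hg le_rfl

end Pool.Agent.X176.SI
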