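import Pool.Agent.X176.SI.Comp

set_option autoImplicit false

open Encodable Denumerable

namespace Pool.Agent.X176.SI

/-! The universal group. The points over `k = p / 3`, where `k / 2` codes `(n, ρ)`. -/

/-- the pair `(n, ρ)` coded by `k / 2` -/
def qq (k : ℕ) : ℕ × List ℕ := ofNat (ℕ × List ℕ) (k / 2)
/-- coding -/
def mk (q : ℕ × List ℕ) (h : ℕ) : ℕ := 2 * encode q + h

theorem qq_mk (q : ℕ × List ℕ) (h : ℕ) (hh : h < 2) : qq (mk q h) = q := by
  unfold qq mk
  rw [show (2 * encode q + h) / 2 = encode q by omega]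
  exact ofNat_encode q

theorem mk_mod (q : ℕ × List ℕ) (h : ℕ) (hh : h < 2) : mk q h % 2 = h := by unfold mk; omega

theorem mk_qq (k : ℕ) : mk (qq k) (k % 2) = k := by
  unfold qq mk
  rw [encode_ofNat]
  omega

/-- flip of the parity -/
def fl (b : Bool) (r : ℕ) : ℕ := if b = true then r + 1 - 2 * (r % 2) else r

theorem fl_fl (b b' : Bool) (r : ℕ) : fl b (fl b' r) = fl (xor b b') r := by
  cases b <;> cases b' <;> simp [fl]
  omega

/-- action on strings -/
def flL (s : ℕ → Bool) (ρ : List ℕ) : List ℕ :=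
  (List.range ρ.length).map fun i => fl (s i) (ρ.getD i 0)

@[simp] theorem length_flL (s : ℕ → Bool) (ρ : List ℕ) : (flL s ρ).length = ρ.length := by
  simp [flL]

theorem getElem_flL (s : ℕ → Bool) (ρ : List ℕ) (i : ℕ) (h : i < ρ.length) :
    (flL s ρ)[i]'(by simpa using h) = fl (s i) (ρ[i]) := by
  simp only [flL, List.getElem_map, List.getElem_range]
  rw [List.getD_eq_getElem _ _ h]

theorem flL_flL (s s' : ℕ → Bool) (ρ : List ℕ) :
    flL s (flL s' ρ) = flL (fun i => xor (s i) (s' i)) ρ := by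
  refine List.ext_getElem (by simp) fun i h1 h2 => ?_
  have h3 : i < ρ.length := by simpa using h1
  rw [getElem_flL _ _ _ (by simpa using h3), getElem_flL _ _ _ h3, getElem_flL _ _ _ h3, fl_fl]

theorem flL_false (ρ : List ℕ) : flL (fun _ => false) ρ = ρ := by
  refine List.ext_getElem (by simp) fun i h1 h2 => ?_
  rw [getElem_flL _ _ _ h2]
  simp [fl]

/-- the base map -/
def bm (s e : ℕ → Bool) (k : ℕ) : ℕ :=
  mk ((qq k).1, flL s (qq k).2) ((k % 2 + (e (qq k).1).toNat) % 2)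

theorem qq_bm (s e : ℕ → Bool) (k : ℕ) : qq (bm s e k) = ((qq k).1, flL s (qq k).2) :=
  qq_mk _ _ (by omega)

theorem bm_mod (s e : ℕ → Bool) (k : ℕ) : bm s e k % 2 = (k % 2 + (e (qq k).1).toNat) % 2 :=
  mk_mod _ _ (by omega)

theorem bm_bm (s e s' e' : ℕ → Bool) (k : ℕ) : bm s e (bm s' e' k) =
    bm (fun i => xor (s i) (s' i)) (fun i => xor (e i) (e' i)) k := by
  unfold bm
  have h := qq_bm s' e' k
  have h' := bm_mod s' e' k
  unfold bm at h h'
  rw [h, h']
  simp only [flL_flL]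
  congr 1
  cases e (qq k).1 <;> cases e' (qq k).1 <;> simp <;> omega

theorem bm_false (k : ℕ) : bm (fun _ => false) (fun _ => false) k = k := by
  unfold bm
  simp only [flL_false, Bool.toNat_false, add_zero, Nat.mod_mod]
  exact mk_qq k

theorem bm_self (s e : ℕ → Bool) (k : ℕ) : bm s e (bm s e k) = k := by
  rw [bm_bm]
  simp only [Bool.xor_self]
  exact bm_false k

/-- The group. -/
def HH : Subgroup (Equiv.Perm ℕ) where
  carrier := {g | ∃ s e : ℕ → Bool, ∀ p, g p / 3 = bm s e (p / 3)}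
  one_mem' := ⟨fun _ => false, fun _ => false, fun p => (bm_false _).symm⟩
  mul_mem' := by
    rintro g h ⟨s, e, hg⟩ ⟨s', e', hh⟩
    refine ⟨fun i => xor (s i) (s' i), fun i => xor (e i) (e' i), fun p => ?_⟩
    rw [← bm_bm s e s' e' (p / 3), ← hh, ← hg]
    rfl
  inv_mem' := by
    rintro g ⟨s, e, hg⟩
    refine ⟨s, e, fun p => ?_⟩
    have h := hg (g⁻¹ p)
    have h2 : g (g⁻¹ p) = p := g.apply_symm_apply p
    rw [h2] at h
    rw [h, bm_self]

theorem mem_HH {g : Equiv.Perm ℕ} : g ∈ HH ↔ ∃ s e : ℕ → Bool, ∀ p, g p / 3 = bm s e (p / 3) :=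
  Iff.rfl

/-- forward map -/
def hv (s e : ℕ → Bool) (v : ℕ → ℕ) (p : ℕ) : ℕ := 3 * bm s e (p / 3) + tb (v (p / 3)) (p % 3)
/-- backward map -/
def hi (s e : ℕ → Bool) (v : ℕ → ℕ) (p : ℕ) : ℕ :=
  3 * bm s e (p / 3) + ti (v (bm s e (p / 3))) (p % 3)

/-- the element given by `s`, `e`, `v` -/
def hp (s e : ℕ → Bool) (v : ℕ → ℕ) (h : ∀ k, v k < 6) : Equiv.Perm ℕ where
  toFun := hv s e v
  invFun := hi s e v
  left_inv := by
    intro p
    have ht := tb_spec (v (p / 3)) (h _) (p % 3) (by omega)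
    unfold hi hv
    have e1 : (3 * bm s e (p / 3) + tb (v (p / 3)) (p % 3)) / 3 = bm s e (p / 3) := by omega
    have e2 : (3 * bm s e (p / 3) + tb (v (p / 3)) (p % 3)) % 3 = tb (v (p / 3)) (p % 3) := by
      omega
    rw [e1, e2, bm_self, ht.2.2.1]
    omega
  right_inv := by
    intro p
    have ht := tb_spec (v (bm s e (p / 3))) (h _) (p % 3) (by omega)
    unfold hi hv
    have e1 : (3 * bm s e (p / 3) + ti (v (bm s e (p / 3))) (p % 3)) / 3 = bm s e (p / 3) := by
      omega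
    have e2 : (3 * bm s e (p / 3) + ti (v (bm s e (p / 3))) (p % 3)) % 3 =
      ti (v (bm s e (p / 3))) (p % 3) := by omega
    rw [e1, e2, bm_self, ht.2.2.2]
    omega

theorem hp_apply (s e : ℕ → Bool) (v : ℕ → ℕ) (h : ∀ k, v k < 6) (p : ℕ) :
    hp s e v h p = hv s e v p := rfl
theorem hp_inv_apply (s e : ℕ → Bool) (v : ℕ → ℕ) (h : ∀ k, v k < 6) (p : ℕ) :
    (hp s e v h)⁻¹ p = hi s e v p := rfl

theorem hp_div (s e : ℕ → Bool) (v : ℕ → ℕ) (h : ∀ k, v k < 6) (p : ℕ) :
    hp s e v h p / 3 = bm s e (p / 3) := by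
  have ht := tb_spec (v (p / 3)) (h _) (p % 3) (by omega)
  rw [hp_apply]
  unfold hv
  omega

theorem hp_mem (s e : ℕ → Bool) (v : ℕ → ℕ) (h : ∀ k, v k < 6) : hp s e v h ∈ HH :=
  ⟨s, e, hp_div s e v h⟩

theorem exists_hp {g : Equiv.Perm ℕ} (hg : g ∈ HH) : ∃ s e v, ∃ h : ∀ k, v k < 6,
    g = hp s e v h := by
  obtain ⟨s, e, hg⟩ := hg
  have hinj : ∀ k i j, i < 3 → j < 3 → g (3 * k + i) % 3 = g (3 * k + j) % 3 → i = j := by
    intro k i j hi hj h
    have d1 := hg (3 * k + i)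
    have d2 := hg (3 * k + j)
    have e1 : (3 * k + i) / 3 = k := by omega
    have e2 : (3 * k + j) / 3 = k := by omega
    rw [e1] at d1
    rw [e2] at d2
    have : g (3 * k + i) = g (3 * k + j) := by omega
    have := g.injective this
    omega
  have hk : ∀ k, ∃ c < 6, ∀ i < 3, tb c i = g (3 * k + i) % 3 := by
    intro k
    obtain ⟨c, hc, h0, h1, h2⟩ := tb_all (g (3 * k + 0) % 3) (by omega) (g (3 * k + 1) % 3)
      (by omega) (g (3 * k + 2) % 3) (by omega)
      (fun h => by have := hinj k 0 1 (by omega) (by omega) h; omega)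
      (fun h => by have := hinj k 0 2 (by omega) (by omega) h; omega)
      (fun h => by have := hinj k 1 2 (by omega) (by omega) h; omega)
    refine ⟨c, hc, fun i hi => ?_⟩
    interval_cases i
    · exact h0
    · exact h1
    · exact h2
  choose v hv1 hv2 using hk
  refine ⟨s, e, v, hv1, ?_⟩
  ext p
  rw [hp_apply]
  unfold hv
  rw [hv2 _ _ (by omega), ← hg]
  have : 3 * (p / 3) + p % 3 = p := by omega
  rw [this]
  omega

/-! ### the formula -/

/-- The quantifier free formula: if `y` commutes with `r` and with the commutator of `x⁻¹ c x` and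
`d`, then `y` commutes with `f`. -/
def psi {G : Type*} [Group G] (x y c d r f : G) : Prop :=
  y * r = r * y ∧ y * ((x⁻¹ * c * x) * d * (x⁻¹ * c * x)⁻¹ * d⁻¹) =
    ((x⁻¹ * c * x) * d * (x⁻¹ * c * x)⁻¹ * d⁻¹) * y → y * f = f * y

/-- the string of parities -/
def par (ρ : List ℕ) : List Bool := ρ.map fun r => decide (r % 2 = 1)

def vc (B : ℕ → Bool) (k : ℕ) : ℕ :=
  if k % 2 = 0 ∧ B (encode ((qq k).1, par (qq k).2)) = true then 3 else 0
def vd (k : ℕ) : ℕ := if (qq k).2.sum = 0 then 2 else 0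
def vr (_ : ℕ) : ℕ := 3
def vf (k : ℕ) : ℕ := if k % 2 = 0 then 3 else 0
def v0 (_ : ℕ) : ℕ := 0
def O (_ : ℕ) : Bool := false
def dl (n i : ℕ) : Bool := decide (i = n)

theorem vc_lt (B : ℕ → Bool) (k : ℕ) : vc B k < 6 := by unfold vc; split_ifs <;> omega
theorem vd_lt (k : ℕ) : vd k < 6 := by unfold vd; split_ifs <;> omega
theorem vr_lt (k : ℕ) : vr k < 6 := by unfold vr; omega
theorem vf_lt (k : ℕ) : vf k < 6 := by unfold vf; split_ifs <;> omega
theorem v0_lt (k : ℕ) : v0 k < 6 := by unfold v0; omega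

def ec (B : ℕ → Bool) : Equiv.Perm ℕ := hp O O (vc B) (vc_lt B)
def ed : Equiv.Perm ℕ := hp O O vd vd_lt
def er : Equiv.Perm ℕ := hp O O vr vr_lt
def ef : Equiv.Perm ℕ := hp O O vf vf_lt
def ey (n : ℕ) : Equiv.Perm ℕ := hp O (dl n) v0 v0_lt
def ex (Z : ℕ → Bool) : Equiv.Perm ℕ := hp Z O v0 v0_lt

/-- fibrewise elements -/
theorem hpO_apply (v : ℕ → ℕ) (h : ∀ k, v k < 6) (p : ℕ) :
    hp O O v h p = 3 * (p / 3) + tb (v (p / 3)) (p % 3) := by
  rw [hp_apply]
  unfold hv
  have : bm O O (p / 3) = p / 3 := bm_false _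
  rw [this]

theorem hpO_div (v : ℕ → ℕ) (h : ∀ k, v k < 6) (p : ℕ) : hp O O v h p / 3 = p / 3 := by
  rw [hp_div]; exact bm_false _

theorem tb3_ne : ∀ i < 3, tb 3 i ≠ i := by decide
theorem tb2_fix : ∀ i < 3, (tb 2 i = i ↔ i = 2) := by decide

theorem inv_div {g : Equiv.Perm ℕ} (h : ∀ p, g p / 3 = p / 3) (p : ℕ) : g⁻¹ p / 3 = p / 3 := by
  have := h (g⁻¹ p)
  rw [show g (g⁻¹ p) = p from g.apply_symm_apply p] at this
  exact this.symm

section comm
variable {B : ℕ → Bool} {x : Equiv.Perm ℕ} {s e : ℕ → Bool}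

/-- the commutator -/
def uu (B : ℕ → Bool) (x : Equiv.Perm ℕ) : Equiv.Perm ℕ :=
  (x⁻¹ * ec B * x) * ed * (x⁻¹ * ec B * x)⁻¹ * ed⁻¹

theorem cx_div (hx : ∀ p, x p / 3 = bm s e (p / 3)) (p : ℕ) : (x⁻¹ * ec B * x) p / 3 = p / 3 := by
  simp only [Equiv.Perm.mul_apply]
  have h1 := hx (x⁻¹ (ec B (x p)))
  rw [show x (x⁻¹ (ec B (x p))) = ec B (x p) from x.apply_symm_apply _] at h1
  rw [show ec B (x p) / 3 = x p / 3 from hpO_div _ _ _, hx] at h1
  have := congrArg (bm s e) h1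
  rw [bm_self, bm_self] at this
  exact this.symm

/-- the commutator is trivial over `k` when `d` is -/
theorem uu_triv1 (hx : ∀ p, x p / 3 = bm s e (p / 3)) (p : ℕ) (h : (qq (p / 3)).2.sum ≠ 0) :
    uu B x p = p := by
  unfold uu
  have hd : ∀ z, z / 3 = p / 3 → ed z = z := by
    intro z hz
    show hp O O vd vd_lt z = z
    rw [hpO_apply, hz]
    unfold vd
    rw [if_neg h, tb0 _ (by omega)]
    omega
  have hd' : ∀ z, z / 3 = p / 3 → ed⁻¹ z = z := by
    intro z hz
    apply ed.injective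
    rw [show ed (ed⁻¹ z) = z from ed.apply_symm_apply z, hd z hz]
  rw [Equiv.Perm.mul_apply, hd' p rfl, Equiv.Perm.mul_apply, Equiv.Perm.mul_apply,
    hd _ (inv_div (cx_div hx) p)]
  exact (x⁻¹ * ec B * x).apply_symm_apply p

/-- the commutator is trivial over `k` when `c` is trivial over its image -/
theorem uu_triv2 (hx : ∀ p, x p / 3 = bm s e (p / 3)) (p : ℕ) (h : vc B (bm s e (p / 3)) = 0) :
    uu B x p = p := by
  unfold uu
  have hc : ∀ z, z / 3 = p / 3 → (x⁻¹ * ec B * x) z = z := by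
    intro z hz
    simp only [Equiv.Perm.mul_apply]
    have h1 : ec B (x z) = x z := by
      show hp O O (vc B) (vc_lt B) (x z) = x z
      rw [hpO_apply, hx, hz, h, tb0 _ (by omega)]
      have := hx z
      rw [hz] at this
      omega
    rw [h1]
    exact x.symm_apply_apply z
  have hc' : ∀ z, z / 3 = p / 3 → (x⁻¹ * ec B * x)⁻¹ z = z := by
    intro z hz
    apply (x⁻¹ * ec B * x).injective
    rw [hc z hz]
    exact (x⁻¹ * ec B * x).apply_symm_apply z
  have e1 : ed⁻¹ p / 3 = p / 3 := inv_div (fun z => hpO_div _ _ z) p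
  have e2 : ed (ed⁻¹ p) / 3 = p / 3 := (show ed (ed⁻¹ p) / 3 = _ from hpO_div _ _ _).trans e1
  rw [Equiv.Perm.mul_apply, Equiv.Perm.mul_apply, Equiv.Perm.mul_apply, hc' _ e1, hc _ e2]
  exact ed.apply_symm_apply p

/-- the commutator is nontrivial over `k` otherwise -/
theorem uu_ne (hx : ∀ p, x p / 3 = bm s e (p / 3)) (k : ℕ) (h1 : (qq k).2.sum = 0)
    (h2 : vc B (bm s e k) = 3) : ∃ p, p / 3 = k ∧ uu B x p ≠ p := by
  by_contra hcon
  push Not at hcon
  set C := x⁻¹ * ec B * x with hC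
  have hne : ∀ z, z / 3 = k → C z ≠ z := by
    intro z hz hzz
    rw [hC] at hzz
    simp only [Equiv.Perm.mul_apply] at hzz
    have h3 : ec B (x z) = x z := by
      have := congrArg x hzz
      rw [show x (x⁻¹ (ec B (x z))) = ec B (x z) from x.apply_symm_apply _] at this
      exact this
    have h4 : hp O O (vc B) (vc_lt B) (x z) = x z := h3
    rw [hpO_apply, hx, hz, h2] at h4
    have h5 := tb3_ne (x z % 3) (by omega)
    have h6 := hx z
    rw [hz] at h6
    omega
  have hdk : ∀ z, z / 3 = k → (ed z = z ↔ z % 3 = 2) := by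
    intro z hz
    have : ed z = 3 * (z / 3) + tb (vd (z / 3)) (z % 3) := hpO_apply _ _ _
    rw [this, hz]
    unfold vd
    rw [if_pos h1]
    have := tb2_fix (z % 3) (by omega)
    constructor
    · intro h; apply this.1; omega
    · intro h; have := this.2 h; omega
  have hdiv : ∀ z, C z / 3 = z / 3 := fun z => cx_div hx z
  let z := 3 * k + 2
  have hz : z / 3 = k := by simp only [z]; omega
  have hz2 : ed z = z := (hdk z hz).2 (by simp only [z]; omega)
  -- apply the commutator at `d (C z)`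
  have hu : uu B x (ed (C z)) = ed (C z) := by
    apply hcon
    rw [show ed (C z) / 3 = C z / 3 from hpO_div _ _ _, hdiv, hz]
  unfold uu at hu
  rw [← hC, Equiv.Perm.mul_apply, Equiv.Perm.mul_apply, Equiv.Perm.mul_apply,
    show ed⁻¹ (ed (C z)) = C z from ed.symm_apply_apply _,
    show C⁻¹ (C z) = z from C.symm_apply_apply _, hz2] at hu
  have hk2 : C z / 3 = k := by rw [hdiv, hz]
  have h7 := (hdk (C z) hk2).1 hu.symm
  apply hne z hz
  simp only [z] at hz ⊢ h7 hk2
  omega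

end comm

end Pool.Agent.X176.SI
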