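import Pool.Agent.Y785.EN.Cone

set_option autoImplicit false

open Encodable
open Nat.Partrec (Code)

namespace Pool.Agent.X176.SI

open Pool.Agent Pool.Agent.Helper227 Pool.Agent.Helper227.EN Pool.Agent.Y785.EN

/-- A Turing ideal, presented as the set of all (characteristic sequences of) sets of natural
numbers whose Turing degree belongs to it: nonempty, closed downward under Turing reducibility,
closed under joins. -/
structure IsTuringIdeal (I : Set (ℕ → Bool)) : Prop where
  nonempty : I.Nonempty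
  down : ∀ X ∈ I, ∀ Y, TLe Y X → Y ∈ I
  join : ∀ X ∈ I, ∀ Y ∈ I, Helper227.join X Y ∈ I

/-- The set `T` of finite binary strings is an infinite binary tree. -/
def IsInfTree (T : List Bool → Bool) : Prop :=
  (∀ σ, T σ = true → ∀ τ, τ <+: σ → T τ = true) ∧ {σ | T σ = true}.Infinite

/-- A Scott ideal: every infinite binary tree computable from a member has an infinite path which
is a member. -/
structure IsScottIdeal (I : Set (ℕ → Bool)) : Prop extends IsTuringIdeal I where
  path : ∀ T : List Bool → Bool, IsInfTree T → (∃ X ∈ I, ComputableIn {chi X} T) →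
    ∃ P ∈ I, ∀ n, T (pre P n) = true

theorem isClosed_PiC' (D : List Bool × List Bool → Prop) (U : ℕ → Bool) : IsClosed (PiC D U) := by
  have : PiC D U = ⋂ s, {y | ¬ D (pre U s, pre y s)} := by
    ext y; simp [PiC]
  rw [this]
  refine isClosed_iInter fun s => ?_
  have hcont : Continuous (fun y : ℕ → Bool => fun i : Fin s => y i) := by fun_prop
  have h2 : {y : ℕ → Bool | ¬ D (pre U s, pre y s)} =
      (fun y : ℕ → Bool => fun i : Fin s => y i) ⁻¹'
        {v | ¬ D (pre U s, List.ofFn v)} := by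
    ext y
    simp only [Set.mem_ofPred_eq, Set.mem_preimage]
    have : List.ofFn (fun i : Fin s => y i) = pre y s := by
      refine List.ext_getElem (by simp) fun i h1 h2 => ?_
      simp [getElem_pre]
    rw [this]
  rw [h2]
  exact (isClosed_discrete _).preimage hcont

/-- The cone avoidance basis theorem. -/
theorem ca {C U : ℕ → Bool} (hC : ¬ TLe C U) {D : List Bool × List Bool → Prop} (hD : S1 D)
    (hne : (PiC D U).Nonempty) : ∃ P ∈ PiC D U, ¬ TLe C (Helper227.join U P) := by
  classical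
  obtain ⟨e, he⟩ := exists_surjective_nat Code
  have hUU : TLe (Helper227.join U U) U := join_tLe (TLe.refl _) (TLe.refl _)
  have hC' : ¬ TLe C (Helper227.join U U) := fun h => hC (h.trans hUU)
  let St := {D : List Bool × List Bool → Prop // S1 D ∧ (PiC D U).Nonempty}
  have hstep : ∀ (c : Code) (p : St), ∃ p' : St, PiC p'.1 U ⊆ PiC p.1 U ∧
      ∀ P ∈ PiC p'.1 U, ¬ cpt2 c C U P := by
    rintro c ⟨D1, hD1, hne1⟩
    obtain ⟨D2, hD2, hne2, hs2, h2⟩ := avoid_step hC' hD1 hne1 c
    obtain ⟨D3, hD3, e3⟩ := PiC_of_tLe hUU hD2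
    refine ⟨⟨D3, hD3, by rw [e3]; exact hne2⟩, ?_, ?_⟩
    · simp only; rw [e3]; exact hs2
    · simp only; rw [e3]; exact h2
  choose f hf1 hf2 using hstep
  let g : ℕ → St := fun n => Nat.rec ⟨D, hD, hne⟩ (fun n p => f (e n) p) n
  have hg : ∀ n, g (n + 1) = f (e n) (g n) := fun n => rfl
  obtain ⟨P, hP⟩ := IsCompact.nonempty_iInter_of_sequence_nonempty_isCompact_isClosed
    (fun n => PiC (g n).1 U) (fun n => by simp only [hg]; exact hf1 (e n) (g n))
    (fun n => (g n).2.2) (isClosed_PiC' _ _).isCompact (fun n => isClosed_PiC' _ _)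
  rw [Set.mem_iInter] at hP
  refine ⟨P, hP 0, fun hle => ?_⟩
  obtain ⟨c, hc⟩ := exists_cpt2 hle
  obtain ⟨n, rfl⟩ := he c
  have := hP (n + 1)
  simp only [hg] at this
  exact hf2 (e n) (g n) P this hc

theorem step {K Z Y : ℕ → Bool} (hK : ¬ TLe K Z) (hY : TLe Y Z)
    {D : List Bool × List Bool → Prop} (hD : S1 D) (hne : (PiC D Y).Nonempty) :
    ∃ P ∈ PiC D Y, ¬ TLe K (Helper227.join Z P) := by
  obtain ⟨D', hD', e⟩ := PiC_of_tLe hY hD
  obtain ⟨P, hP, h⟩ := ca hK hD' (by rw [e]; exact hne)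
  exact ⟨P, e ▸ hP, h⟩

/-- the `c`-th Sigma-one predicate -/
def Dc (c : Code) (x : List Bool × List Bool) : Prop := (c.eval (encode x)).Dom

theorem exists_Dc {D : List Bool × List Bool → Prop} (hD : S1 D) : ∃ c, D = Dc c := by
  obtain ⟨c, hc⟩ := Nat.Partrec.Code.exists_code.1 hD.re
  refine ⟨c, ?_⟩
  funext x
  unfold Dc
  rw [hc]
  simp [Part.assert]

theorem s1_Dc (c : Code) : S1 (Dc c) := by
  have : REPred (Dc c) := by
    unfold Dc
    have h : Partrec fun x : List Bool × List Bool => c.eval (encode x) :=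
      (Nat.Partrec.Code.eval_part.comp (Computable.const c) Computable.encode)
    exact h.dom_re
  exact S1.of_re this

/-- History: newest first. -/
structure Hist (K : ℕ → Bool) where
  hd : ℕ → Bool
  tl : List (ℕ → Bool)
  le : ∀ Z ∈ hd :: tl, TLe Z hd
  no : ¬ TLe K hd

theorem next (K : ℕ → Bool) (h : Hist K) (j : ℕ) (c : Code) : ∃ h' : Hist K,
    h'.tl = h.hd :: h.tl ∧ (∀ Y, (h.hd :: h.tl)[j]? = some Y → (PiC (Dc c) Y).Nonempty →
      ∃ P ∈ PiC (Dc c) Y, TLe P h'.hd) := by
  classical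
  by_cases hh : ∃ Y, (h.hd :: h.tl)[j]? = some Y ∧ (PiC (Dc c) Y).Nonempty
  · obtain ⟨Y, hY, hne⟩ := hh
    obtain ⟨P, hP, hno⟩ := step h.no (h.le Y (List.mem_of_getElem? hY)) (s1_Dc c) hne
    refine ⟨⟨Helper227.join h.hd P, h.hd :: h.tl, ?_, hno⟩, rfl, ?_⟩
    · intro Z hZ
      rcases List.mem_cons.1 hZ with rfl | hZ
      · exact TLe.refl _
      · exact (h.le Z hZ).trans (tLe_join_left _ _)
    · intro Y' hY' _
      obtain rfl : Y' = Y := by rw [hY] at hY'; exact (Option.some.inj hY').symm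
      exact ⟨P, hP, tLe_join_right _ _⟩
  · refine ⟨⟨h.hd, h.hd :: h.tl, ?_, h.no⟩, rfl, ?_⟩
    · intro Z hZ
      rcases List.mem_cons.1 hZ with rfl | hZ
      · exact TLe.refl _
      · exact h.le Z hZ
    · intro Y hY hne
      exact absurd ⟨Y, hY, hne⟩ hh

theorem exists_ideal {K : ℕ → Bool} (hK : ¬ TLe K (fun _ => false)) :
    ∃ I : Set (ℕ → Bool), IsTuringIdeal I ∧ K ∉ I ∧
      ∀ X ∈ I, ∀ D, S1 D → (PiC D X).Nonempty → ∃ P ∈ PiC D X, P ∈ I := by
  classical
  choose nx hnx1 hnx2 using next K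
  let h0 : Hist K := ⟨fun _ => false, [], by simp [TLe.refl], hK⟩
  let s : ℕ → Hist K := fun n => Nat.rec h0
    (fun n h => nx h (n - n.unpair.1) (Denumerable.ofNat Code n.unpair.2)) n
  have hs : ∀ n, s (n + 1) = nx (s n) (n - n.unpair.1) (Denumerable.ofNat Code n.unpair.2) :=
    fun n => rfl
  have htl : ∀ n, (s (n + 1)).tl = (s n).hd :: (s n).tl := by
    intro n; rw [hs]; exact hnx1 _ _ _
  have hle1 : ∀ n, TLe (s n).hd (s (n + 1)).hd := by
    intro n
    apply (s (n + 1)).le
    rw [htl]; simp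
  have hle : ∀ n m, TLe (s n).hd (s (n + m)).hd := by
    intro n m
    induction m with
    | zero => exact TLe.refl _
    | succ m ih => exact ih.trans (hle1 _)
  have hget : ∀ n m, ((s (n + m)).hd :: (s (n + m)).tl)[m]? = some (s n).hd := by
    intro n m
    induction m with
    | zero => simp
    | succ m ih =>
      rw [← add_assoc, htl]
      simpa using ih
  refine ⟨{X | ∃ k, TLe X (s k).hd}, ⟨⟨_, 0, TLe.refl _⟩, ?_, ?_⟩, ?_, ?_⟩
  · rintro X ⟨k, hk⟩ Y hY
    exact ⟨k, hY.trans hk⟩
  · rintro X ⟨k, hk⟩ Y ⟨l, hl⟩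
    refine ⟨k + l, join_tLe (hk.trans (hle _ _)) (hl.trans ?_)⟩
    rw [add_comm]
    exact hle _ _
  · rintro ⟨k, hk⟩
    exact (s k).no hk
  · rintro X ⟨i, hi⟩ D hD hne
    obtain ⟨D', hD', e⟩ := PiC_of_tLe hi hD
    obtain ⟨c, rfl⟩ := exists_Dc hD'
    let k := Nat.pair i (encode c)
    have hik : i ≤ k := Nat.left_le_pair _ _
    have h1 := hnx2 (s k) (k - k.unpair.1) (Denumerable.ofNat Code k.unpair.2)
    have hu1 : k.unpair.1 = i := by simp [k]
    have hu2 : Denumerable.ofNat Code k.unpair.2 = c := by simp [k]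
    rw [hu1, hu2] at h1
    have hkk : i + (k - i) = k := by omega
    have h2 := hget i (k - i)
    rw [hkk] at h2
    obtain ⟨P, hP, hPk⟩ := h1 _ h2 (by rw [e]; exact hne)
    refine ⟨P, e ▸ hP, k + 1, ?_⟩
    rw [hs, hu1, hu2]
    exact hPk

/-- Every noncomputable set is omitted by some Scott ideal. -/
theorem exists_scott {K : ℕ → Bool} (hK : ¬ TLe K (fun _ => false)) :
    ∃ I : Set (ℕ → Bool), IsScottIdeal I ∧ K ∉ I := by
  obtain ⟨I, hI, hKI, hb⟩ := exists_ideal hK
  refine ⟨I, ⟨hI, ?_⟩, hKI⟩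
  rintro T ⟨hpre, hinf⟩ ⟨X, hX, hTX⟩
  obtain ⟨G0, hG0, mG0, eG0⟩ := recIn_graph hTX
  obtain ⟨G, hG, mG, eG⟩ : ∃ G : List Bool × ℕ × Bool → Prop, S1 G ∧
      (∀ σ τ n b, σ <+: τ → G (σ, n, b) → G (τ, n, b)) ∧
      ∀ (σ : List Bool) b, T σ = b ↔ ∃ s, G (pre X s, encode σ, b) := by
    refine ⟨fun x => G0 (x.1, x.2.1, encode x.2.2), hG0.comp ?_, ?_, ?_⟩
    · exact Primrec.fst.pair ((Primrec.fst.comp Primrec.snd).pair
        (Primrec.encode.comp (Primrec.snd.comp Primrec.snd)))
    · intro σ τ n b h h'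
      exact mG0 _ _ _ _ h h'
    · intro σ b
      have := eG0 (encode σ) (encode b)
      simp only [encodek, Part.coe_some, Part.bind_some, Part.map_some, Part.mem_some_iff,
        encode_inj] at this
      rw [← this]
      exact eq_comm
  -- the class of paths
  have hcls : ∀ P : ℕ → Bool, P ∈ PiC (fun x => ∃ k ≤ x.2.length, G (x.1, encode (x.2.take k), false)) X ↔
      ∀ n, T (pre P n) = true := by
    intro P
    have key : ∀ σ : List Bool, T σ = false ↔ ∃ s, G (pre X s, encode σ, false) := by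
      intro σ
      exact eG σ false
    constructor
    · intro h n
      by_contra hT
      rw [Bool.not_eq_true] at hT
      obtain ⟨s, hs⟩ := (key _).1 hT
      refine h (max s n) ⟨n, by simp, ?_⟩
      simp only
      rw [take_pre _ _ _ (le_max_right _ _)]
      exact mG _ _ _ _ (pre_prefix _ (le_max_left _ _)) hs
    · rintro h s ⟨k, hk, hGk⟩
      simp only [length_pre] at hk hGk
      rw [take_pre _ _ _ hk] at hGk
      have := (key _).2 ⟨s, hGk⟩
      rw [h k] at this
      exact absurd this (by simp)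
  have hD : S1 (fun x : List Bool × List Bool => ∃ k ≤ x.2.length, G (x.1, encode (x.2.take k), false)) := by
    refine S1.ex (S1.and (S1.of_prim ?_) (hG.comp ?_))
    · exact Primrec.nat_le.comp Primrec.snd (Primrec.list_length.comp (Primrec.snd.comp Primrec.fst))
    · exact (Primrec.fst.comp Primrec.fst).pair ((Primrec.encode.comp (Primrec.list_take.comp
        Primrec.snd (Primrec.snd.comp Primrec.fst))).pair (Primrec.const false))
  -- Koenig
  have hlev : ∀ n, ∃ σ : List Bool, T σ = true ∧ σ.length = n := by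
    intro n
    have : ∃ σ ∈ {σ | T σ = true}, σ ∉ {σ : List Bool | σ.length < n} :=
      hinf.exists_notMem_finite (List.finite_length_lt Bool n)
    obtain ⟨σ, hσ, hn⟩ := this
    simp only [Set.mem_ofPred_eq, not_lt] at hσ hn
    exact ⟨σ.take n, hpre σ hσ _ (List.take_prefix _ _), by simp [hn]⟩
  have hne : (PiC (fun x : List Bool × List Bool => ∃ k ≤ x.2.length, G (x.1, encode (x.2.take k), false)) X).Nonempty := by
    obtain ⟨P, hP⟩ := IsCompact.nonempty_iInter_of_sequence_nonempty_isCompact_isClosed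
      (fun n => {P : ℕ → Bool | T (pre P n) = true}) (fun n P hP => hpre _ hP _ (pre_prefix _ (by omega)))
      (fun n => by
        obtain ⟨σ, hσ, hl⟩ := hlev n
        refine ⟨fun i => σ.getD i false, ?_⟩
        simp only [Set.mem_ofPred_eq]
        have : pre (fun i => σ.getD i false) n = σ := by
          refine List.ext_getElem (by simp [hl]) fun i h1 h2 => ?_
          rw [getElem_pre, List.getD_eq_getElem _ _ h2]
        rw [this]; exact hσ) (isClosed_lev T 0).isCompact (fun n => isClosed_lev T n)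
    exact ⟨P, (hcls P).2 (by simpa using hP)⟩
  obtain ⟨P, hP, hPI⟩ := hb X hX _ hD hne
  exact ⟨P, hPI, (hcls P).1 hP⟩
where
  isClosed_lev (T : List Bool → Bool) (s : ℕ) : IsClosed {P : ℕ → Bool | T (pre P s) = true} := by
    have hcont : Continuous (fun y : ℕ → Bool => fun i : Fin s => y i) := by fun_prop
    have h2 : {y : ℕ → Bool | T (pre y s) = true} =
        (fun y : ℕ → Bool => fun i : Fin s => y i) ⁻¹' {v | T (List.ofFn v) = true} := by
      ext y
      simp only [Set.mem_ofPred_eq, Set.mem_preimage]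
      have : List.ofFn (fun i : Fin s => y i) = pre y s := by
        refine List.ext_getElem (by simp) fun i h1 h2 => ?_
        simp [getElem_pre]
      rw [this]
    rw [h2]
    exact (isClosed_discrete _).preimage hcont

end Pool.Agent.X176.SI
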