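import Pool.Agent.X176.SI.Alg
import Pool.Agent.X176.SI.Ideal

set_option autoImplicit false

open Encodable

namespace Pool.Agent.X176.SI

open Pool.Agent Pool.Agent.Helper227 Pool.Agent.Helper227.EN Pool.Agent.Y785.EN

theorem compIn (B : ℕ → Bool) {α β : Type*} [Primcodable α] [Primcodable β]
    {F : List Bool → α → β} (hF : Primrec₂ F) {h : α → ℕ} (hh : Primrec h) :
    ComputableIn {chi B} (fun x => F (pre B (h x)) x) := by
  unfold ComputableIn RecursiveIn
  refine recIn_of_graph (G := fun x : List Bool × ℕ × ℕ => ∃ a : α, decode x.2.1 = some a ∧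
    h a ≤ x.1.length ∧ encode (F (x.1.take (h a)) a) = x.2.2) ?_ ?_
  · refine S1.ex (S1.of_prim (PrimrecPred.and ?_ (PrimrecPred.and ?_ ?_)))
    · exact Primrec.eq.comp (Primrec.decode.comp (Primrec.fst.comp (Primrec.snd.comp Primrec.fst)))
        (Primrec.option_some.comp Primrec.snd)
    · exact Primrec.nat_le.comp (hh.comp Primrec.snd)
        (Primrec.list_length.comp (Primrec.fst.comp Primrec.fst))
    · exact Primrec.eq.comp (Primrec.encode.comp (hF.comp (Primrec.list_take.comp
        (hh.comp Primrec.snd) (Primrec.fst.comp Primrec.fst)) Primrec.snd))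
        (Primrec.snd.comp (Primrec.snd.comp Primrec.fst))
  · intro n m
    simp only [Part.mem_bind_iff, Part.map_some, Part.mem_some_iff, Part.mem_coe, Option.mem_def]
    constructor
    · rintro ⟨a, ha, hm⟩
      refine ⟨h a, a, ha, by simp, ?_⟩
      rw [take_pre _ _ _ le_rfl, hm]
    · rintro ⟨s, a, ha, hs, hm⟩
      rw [length_pre] at hs
      rw [take_pre _ _ _ hs] at hm
      exact ⟨a, ha, hm.symm⟩

theorem prim_tb : Primrec₂ tb :=
  (Primrec.list_getD 0).comp (Primrec.const _)
    (Primrec.nat_add.comp (Primrec.nat_mul.comp (Primrec.const 3) Primrec.fst) Primrec.snd)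

theorem prim_ti : Primrec₂ ti :=
  (Primrec.list_getD 0).comp (Primrec.const _)
    (Primrec.nat_add.comp (Primrec.nat_mul.comp (Primrec.const 3) Primrec.fst) Primrec.snd)

/-! ### The maps with tables -/

section tab
variable {α : Type*} [Primcodable α]

/-- forward map, from the table `A` and the word `w` -/
def gvL (A : List Bool) (w : ℕ → ℕ) (x : ℕ) : ℕ :=
  6 * (x / 6) + 2 * tb (w (2 * (x / 6).unpair.1)) (x % 6 / 2) +
    (x % 2 + if A.getD (x / 6) false = true then w (2 * (3 * (x / 6) + x % 6 / 2) + 1) else 0) % 2

/-- backward map, from the table `A` and the word `w` -/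
def giL (A : List Bool) (w : ℕ → ℕ) (x : ℕ) : ℕ :=
  6 * (x / 6) + 2 * ti (w (2 * (x / 6).unpair.1)) (x % 6 / 2) +
    (x % 2 + if A.getD (x / 6) false = true then
      w (2 * (3 * (x / 6) + ti (w (2 * (x / 6).unpair.1)) (x % 6 / 2)) + 1) else 0) % 2

theorem prim_gvL {A : α → List Bool} {w : α → ℕ → ℕ} {x : α → ℕ} (hA : Primrec A)
    (hw : Primrec₂ w) (hx : Primrec x) : Primrec fun p => gvL (A p) (w p) (x p) := by
  have h6 : Primrec fun p => x p / 6 := Primrec.nat_div.comp hx (Primrec.const 6)
  have hu : Primrec fun p => (x p / 6).unpair.1 := Primrec.fst.comp (Primrec.unpair.comp h6)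
  have hr : Primrec fun p => x p % 6 / 2 :=
    Primrec.nat_div.comp (Primrec.nat_mod.comp hx (Primrec.const 6)) (Primrec.const 2)
  have hw0 : Primrec fun p => w p (2 * (x p / 6).unpair.1) :=
    hw.comp Primrec.id (Primrec.nat_mul.comp (Primrec.const 2) hu)
  have hw1 : Primrec fun p => w p (2 * (3 * (x p / 6) + x p % 6 / 2) + 1) :=
    hw.comp Primrec.id (Primrec.succ.comp (Primrec.nat_mul.comp (Primrec.const 2)
      (Primrec.nat_add.comp (Primrec.nat_mul.comp (Primrec.const 3) h6) hr)))
  have hc : PrimrecPred fun p => (A p).getD (x p / 6) false = true :=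
    Primrec.eq.comp ((Primrec.list_getD false).comp hA h6) (Primrec.const true)
  exact Primrec.nat_add.comp (Primrec.nat_add.comp (Primrec.nat_mul.comp (Primrec.const 6) h6)
    (Primrec.nat_mul.comp (Primrec.const 2) (prim_tb.comp hw0 hr)))
    (Primrec.nat_mod.comp (Primrec.nat_add.comp (Primrec.nat_mod.comp hx (Primrec.const 2))
      (Primrec.ite hc hw1 (Primrec.const 0))) (Primrec.const 2))

theorem prim_giL {A : α → List Bool} {w : α → ℕ → ℕ} {x : α → ℕ} (hA : Primrec A)
    (hw : Primrec₂ w) (hx : Primrec x) : Primrec fun p => giL (A p) (w p) (x p) := by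
  have h6 : Primrec fun p => x p / 6 := Primrec.nat_div.comp hx (Primrec.const 6)
  have hu : Primrec fun p => (x p / 6).unpair.1 := Primrec.fst.comp (Primrec.unpair.comp h6)
  have hr : Primrec fun p => x p % 6 / 2 :=
    Primrec.nat_div.comp (Primrec.nat_mod.comp hx (Primrec.const 6)) (Primrec.const 2)
  have hw0 : Primrec fun p => w p (2 * (x p / 6).unpair.1) :=
    hw.comp Primrec.id (Primrec.nat_mul.comp (Primrec.const 2) hu)
  have hti := prim_ti.comp hw0 hr
  have hw1 : Primrec fun p => w p (2 * (3 * (x p / 6) +
      ti (w p (2 * (x p / 6).unpair.1)) (x p % 6 / 2)) + 1) :=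
    hw.comp Primrec.id (Primrec.succ.comp (Primrec.nat_mul.comp (Primrec.const 2)
      (Primrec.nat_add.comp (Primrec.nat_mul.comp (Primrec.const 3) h6) hti)))
  have hc : PrimrecPred fun p => (A p).getD (x p / 6) false = true :=
    Primrec.eq.comp ((Primrec.list_getD false).comp hA h6) (Primrec.const true)
  exact Primrec.nat_add.comp (Primrec.nat_add.comp (Primrec.nat_mul.comp (Primrec.const 6) h6)
    (Primrec.nat_mul.comp (Primrec.const 2) hti))
    (Primrec.nat_mod.comp (Primrec.nat_add.comp (Primrec.nat_mod.comp hx (Primrec.const 2))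
      (Primrec.ite hc hw1 (Primrec.const 0))) (Primrec.const 2))

/-- all words of length `n` in the letters `0, ..., 5` -/
def words : ℕ → List (List ℕ)
  | 0 => [[]]
  | n + 1 => (words n).flatMap fun w => (List.range 6).map fun k => w ++ [k]

theorem mem_words {n : ℕ} {w : List ℕ} : w ∈ words n ↔ w.length = n ∧ ∀ k ∈ w, k < 6 := by
  induction n generalizing w with
  | zero => simp [words]; rintro rfl; simp
  | succ n ih =>
    simp only [words, List.mem_flatMap, List.mem_map, List.mem_range, ih]
    constructor
    · rintro ⟨v, ⟨h1, h2⟩, k, hk, rfl⟩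
      refine ⟨by simp [h1], ?_⟩
      intro j hj
      rcases List.mem_append.1 hj with h | h
      · exact h2 j h
      · rw [List.mem_singleton] at h; omega
    · rintro ⟨h1, h2⟩
      have hne : w ≠ [] := by rintro rfl; simp at h1
      refine ⟨w.dropLast, ⟨by simp [h1], fun k hk => h2 k (List.mem_of_mem_dropLast hk)⟩,
        w.getLast hne, h2 _ (List.getLast_mem hne), List.dropLast_append_getLast hne⟩

theorem prim_words : Primrec words := by
  have h : Primrec (fun n : ℕ => (Nat.rec [[]] (fun _ l => l.flatMap fun w =>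
      (List.range 6).map fun k => w ++ [k]) n : List (List ℕ))) := by
    refine Primrec.nat_rec₁ [[]] ?_
    refine Primrec.list_flatMap Primrec.snd ?_
    refine Primrec.list_map (Primrec.const _) ?_
    exact Primrec.list_append.comp (Primrec.snd.comp Primrec.fst)
      (Primrec.list_cons.comp Primrec.snd (Primrec.const []))
  refine h.of_eq fun n => ?_
  induction n with
  | zero => rfl
  | succ n ih => simp only [words]; rw [← ih]

/-- the string of the values -/
def strF (f g : ℕ → ℕ) (n : ℕ) : List ℕ := (List.range (n + 1)).flatMap fun i => [f i, g i]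

theorem length_strF (f g : ℕ → ℕ) (n : ℕ) : (strF f g n).length = 2 * (n + 1) := by
  simp [strF, List.length_flatMap]
  omega

theorem strF_prefix (f g : ℕ → ℕ) {m n : ℕ} (h : m ≤ n) : strF f g m <+: strF f g n := by
  obtain ⟨k, rfl⟩ := Nat.exists_eq_add_of_le h
  unfold strF
  have e : List.range (m + k + 1) = List.range (m + 1) ++ (List.range k).map (m + 1 + ·) := by
    rw [show m + k + 1 = (m + 1) + k by omega]
    exact List.range_add
  rw [e, List.flatMap_append]
  exact List.prefix_append _ _

theorem strF_congr {f g f' g' : ℕ → ℕ} {n : ℕ} (h : ∀ i ≤ n, f i = f' i ∧ g i = g' i) :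
    strF f g n = strF f' g' n := by
  unfold strF
  simp only [List.flatMap_def]
  congr 1
  refine List.map_congr_left fun i hi => ?_
  rw [List.mem_range] at hi
  rw [(h i (by omega)).1, (h i (by omega)).2]

theorem prefix_strF {f g : ℕ → ℕ} {τ : List ℕ} : (∃ n, τ <+: strF f g n) ↔
    τ <+: strF f g τ.length := by
  constructor
  · rintro ⟨n, hn⟩
    rcases le_total n τ.length with h | h
    · exact hn.trans (strF_prefix f g h)
    · exact List.prefix_of_prefix_length_le hn (strF_prefix f g h) (by rw [length_strF]; omega)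
  · exact fun h => ⟨_, h⟩

open Classical in
/-- the tree from the table -/
noncomputable def TL (A : List Bool) (τ : List ℕ) : Bool :=
  decide (∃ w ∈ words (τ.length + 6), τ = (strF (gvL A fun k => w.getD k 0)
    (giL A fun k => w.getD k 0) τ.length).take τ.length)

theorem TL_iff (A : List Bool) (τ : List ℕ) : TL A τ = true ↔ ∃ w ∈ words (τ.length + 6),
    τ = (strF (gvL A fun k => w.getD k 0) (giL A fun k => w.getD k 0) τ.length).take τ.length := by
  unfold TL
  exact @decide_eq_true_iff _ (Classical.propDecidable _)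

theorem prim_TL : Primrec₂ TL := by
  have h : PrimrecPred fun x : List Bool × List ℕ => ∃ w ∈ words (x.2.length + 6),
      x.2 = (strF (gvL x.1 fun k => w.getD k 0) (giL x.1 fun k => w.getD k 0)
        x.2.length).take x.2.length := ?_
  · have h2 := h.decide
    refine Primrec.of_eq h2 fun x => ?_
    unfold TL
    congr
  refine PP.ex_mem (α := List Bool × List ℕ) (f := fun x => words (x.2.length + 6))
    (p := fun x w => x.2 = (strF (gvL x.1 fun k => w.getD k 0)
    (giL x.1 fun k => w.getD k 0) x.2.length).take x.2.length) ?_ ?_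
  · refine Primrec.eq.comp (Primrec.snd.comp Primrec.fst) (Primrec.list_take.comp
      (Primrec.list_length.comp (Primrec.snd.comp Primrec.fst)) ?_)
    refine Primrec.list_flatMap (Primrec.list_range.comp (Primrec.succ.comp
      (Primrec.list_length.comp (Primrec.snd.comp Primrec.fst)))) ?_
    refine Primrec.list_cons.comp ?_ (Primrec.list_cons.comp ?_ (Primrec.const []))
    · refine prim_gvL (Primrec.fst.comp (Primrec.fst.comp Primrec.fst)) ?_ Primrec.snd
      exact (Primrec.list_getD 0).comp (Primrec.snd.comp (Primrec.fst.comp Primrec.fst)) Primrec.snd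
    · refine prim_giL (Primrec.fst.comp (Primrec.fst.comp Primrec.fst)) ?_ Primrec.snd
      exact (Primrec.list_getD 0).comp (Primrec.snd.comp (Primrec.fst.comp Primrec.fst)) Primrec.snd
  · exact prim_words.comp (Primrec.nat_add.comp (Primrec.list_length.comp Primrec.snd)
      (Primrec.const 6))

/-- the branching function from the table -/
noncomputable def BL (A : List Bool) (τ : List ℕ) : ℕ :=
  ((List.range (τ.length + 10)).filter fun m => TL A (τ ++ [m])).length

theorem prim_BL : Primrec₂ BL := by
  have h : Primrec₂ fun (A : List Bool) (τ : List ℕ) =>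
      ((List.range (τ.length + 10)).filterMap fun m => if TL A (τ ++ [m]) = true then some m
        else none).length := by
    refine Primrec.list_length.comp (Primrec.listFilterMap (Primrec.list_range.comp
      (Primrec.nat_add.comp (Primrec.list_length.comp Primrec.snd) (Primrec.const 10))) ?_)
    refine Primrec.ite (Primrec.eq.comp (prim_TL.comp (Primrec.fst.comp Primrec.fst)
      (Primrec.list_append.comp (Primrec.snd.comp Primrec.fst) (Primrec.list_cons.comp Primrec.snd
        (Primrec.const [])))) (Primrec.const true)) (Primrec.option_some.comp Primrec.snd)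
        (Primrec.const none)
  refine h.of_eq fun A τ => ?_
  unfold BL
  rw [← List.filterMap_eq_filter]
  congr 2

end tab

end Pool.Agent.X176.SI
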