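import Mathlib

set_option autoImplicit false

namespace Pool.Agent.X176.SI

/-! The group: permutations of `ℕ` acting on the points `6 * m + 2 * i + e` (`i < 3`, `e < 2`) of the
blocks `m = ⟨n, s⟩`. -/

/-- the point of the block `m` with coordinates `i`, `e` -/
abbrev pt (m i e : ℕ) : ℕ := 6 * m + 2 * i + e

/-- the point `(n, 0, i, 0)` below the point `x = (n, s, i, e)` -/
def ov (x : ℕ) : ℕ := 6 * Nat.pair (x / 6).unpair.1 0 + 2 * (x % 6 / 2)

/-- `x` lies in an active block -/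
def act (a : ℕ → ℕ → Bool) (m : ℕ) : Bool := a m.unpair.1 m.unpair.2

/-- The permutations preserving all blocks, commuting with `ov`, and preserving the parity in the
inactive blocks. -/
def GG (a : ℕ → ℕ → Bool) : Subgroup (Equiv.Perm ℕ) where
  carrier := {g | ∀ x, g x / 6 = x / 6 ∧ ov (g x) = g (ov x) ∧
    (act a (x / 6) = false → g x % 2 = x % 2)}
  one_mem' := by intro x; simp
  mul_mem' := by
    intro g h hg hh x
    have h1 := hh x
    have h2 := hg (h x)
    simp only [Equiv.Perm.mul_apply]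
    refine ⟨h2.1.trans h1.1, ?_, ?_⟩
    · rw [h2.2.1, h1.2.1]
    · intro h3
      rw [h2.2.2 (by rw [h1.1]; exact h3), h1.2.2 h3]
  inv_mem' := by
    intro g hg x
    have h1 := hg (g⁻¹ x)
    have e : ∀ y, g (g⁻¹ y) = y := fun y => g.apply_symm_apply y
    simp only [e] at h1
    refine ⟨h1.1.symm, ?_, ?_⟩
    · apply g.injective
      rw [← h1.2.1, e]
    · intro h3
      exact (h1.2.2 (by rw [← h1.1]; exact h3)).symm

theorem mem_GG {a : ℕ → ℕ → Bool} {g : Equiv.Perm ℕ} : g ∈ GG a ↔ ∀ x, g x / 6 = x / 6 ∧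
    ov (g x) = g (ov x) ∧ (act a (x / 6) = false → g x % 2 = x % 2) := Iff.rfl

theorem ov_pt (m i e : ℕ) (hi : i < 3) (he : e < 2) :
    ov (pt m i e) = pt (Nat.pair m.unpair.1 0) i 0 := by
  unfold ov pt
  have h1 : (6 * m + 2 * i + e) / 6 = m := by omega
  have h2 : (6 * m + 2 * i + e) % 6 / 2 = i := by omega
  rw [h1, h2]; omega

theorem exists_pt (x : ℕ) : ∃ m i e, i < 3 ∧ e < 2 ∧ x = pt m i e :=
  ⟨x / 6, x % 6 / 2, x % 2, by omega, by omega, by unfold pt; omega⟩

/-- first coordinate of the action -/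
def PP (g : ℕ → ℕ) (n i : ℕ) : ℕ := g (pt (Nat.pair n 0) i 0) % 6 / 2
/-- second coordinate of the action -/
def VV (g : ℕ → ℕ) (m i : ℕ) : ℕ := g (pt m i 0) % 2

variable {a : ℕ → ℕ → Bool}

theorem PP_lt (g : ℕ → ℕ) (n i : ℕ) : PP g n i < 3 := by unfold PP; omega

/-- description of the elements of the group -/
theorem desc {g : Equiv.Perm ℕ} (hg : g ∈ GG a) (m i e : ℕ) (hi : i < 3) (he : e < 2) :
    g (pt m i e) = pt m (PP g m.unpair.1 i) ((e + VV g m i) % 2) := by
  have key : ∀ e, e < 2 → g (pt m i e) / 6 = m ∧ g (pt m i e) % 6 / 2 = PP g m.unpair.1 i := by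
    intro e he
    have h1 := (hg (pt m i e)).1
    have h2 := (hg (pt m i e)).2.1
    have h3 : pt m i e / 6 = m := by unfold pt; omega
    rw [h3] at h1
    refine ⟨h1, ?_⟩
    rw [ov_pt _ _ _ hi he] at h2
    unfold PP
    rw [← h2]
    unfold ov
    rw [h1]
    omega
  obtain ⟨k1, k2⟩ := key e he
  obtain ⟨z1, z2⟩ := key 0 (by omega)
  have hP := PP_lt g m.unpair.1 i
  have hx : ∀ x : ℕ, x = 6 * (x / 6) + 2 * (x % 6 / 2) + x % 2 := by intro x; omega
  have e1 := hx (g (pt m i e))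
  rw [k1, k2] at e1
  have e0 := hx (g (pt m i 0))
  rw [z1, z2] at e0
  have hv : VV g m i = g (pt m i 0) % 2 := rfl
  rcases Nat.lt_succ_iff_lt_or_eq.1 he with h | h
  · obtain rfl : e = 0 := by omega
    rw [e0, hv]
    unfold pt at *
    omega
  · subst h
    have hne : g (pt m i 1) ≠ g (pt m i 0) := by
      intro hh
      have := g.injective hh
      unfold pt at this
      omega
    unfold pt at *
    omega

theorem VV_inact {g : Equiv.Perm ℕ} (hg : g ∈ GG a) (m i : ℕ) (hi : i < 3)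
    (h : act a m = false) : VV g m i = 0 := by
  have h3 : pt m i 0 / 6 = m := by unfold pt; omega
  have := (hg (pt m i 0)).2.2 (by rw [h3]; exact h)
  unfold VV
  rw [this]
  unfold pt; omega

theorem VV_lt (g : ℕ → ℕ) (m i : ℕ) : VV g m i < 2 := by unfold VV; omega

/-! ### the elements given by words -/

/-- table of the permutations of three points -/
def tb (k i : ℕ) : ℕ := ([0,1,2, 0,2,1, 1,0,2, 1,2,0, 2,0,1, 2,1,0] : List ℕ).getD (3 * k + i) 0
/-- table of the inverse permutations -/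
def ti (k i : ℕ) : ℕ := ([0,1,2, 0,2,1, 1,0,2, 2,0,1, 1,2,0, 2,1,0] : List ℕ).getD (3 * k + i) 0

theorem tb_spec : ∀ k < 6, ∀ i < 3, tb k i < 3 ∧ ti k i < 3 ∧ ti k (tb k i) = i ∧
    tb k (ti k i) = i := by decide

theorem tb_all' : ∀ x y z : Fin 3, x ≠ y → x ≠ z → y ≠ z → ∃ k : Fin 6,
    tb k 0 = x ∧ tb k 1 = y ∧ tb k 2 = z := by decide

theorem tb_all (x : ℕ) (hx : x < 3) (y : ℕ) (hy : y < 3) (z : ℕ) (hz : z < 3) (h1 : x ≠ y)
    (h2 : x ≠ z) (h3 : y ≠ z) : ∃ k < 6, tb k 0 = x ∧ tb k 1 = y ∧ tb k 2 = z := by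
  obtain ⟨k, hk⟩ := tb_all' ⟨x, hx⟩ ⟨y, hy⟩ ⟨z, hz⟩ (by simpa using h1) (by simpa using h2)
    (by simpa using h3)
  exact ⟨k, k.2, hk⟩

/-- the bit of the word `w` at the line `i` of the block `m` -/
def bt (a : ℕ → ℕ → Bool) (w : ℕ → ℕ) (m i : ℕ) : ℕ :=
  if act a m then w (2 * (3 * m + i) + 1) else 0

/-- forward map -/
def gv (a : ℕ → ℕ → Bool) (w : ℕ → ℕ) (x : ℕ) : ℕ :=
  6 * (x / 6) + 2 * tb (w (2 * (x / 6).unpair.1)) (x % 6 / 2) +
    (x % 2 + bt a w (x / 6) (x % 6 / 2)) % 2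

/-- backward map -/
def gi (a : ℕ → ℕ → Bool) (w : ℕ → ℕ) (x : ℕ) : ℕ :=
  6 * (x / 6) + 2 * ti (w (2 * (x / 6).unpair.1)) (x % 6 / 2) +
    (x % 2 + bt a w (x / 6) (ti (w (2 * (x / 6).unpair.1)) (x % 6 / 2))) % 2

theorem gv_pt (w : ℕ → ℕ) (m i e : ℕ) (hi : i < 3) (he : e < 2) :
    gv a w (pt m i e) = pt m (tb (w (2 * m.unpair.1)) i) ((e + bt a w m i) % 2) := by
  unfold gv pt
  have h1 : (6 * m + 2 * i + e) / 6 = m := by omega
  have h2 : (6 * m + 2 * i + e) % 6 / 2 = i := by omega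
  have h3 : (6 * m + 2 * i + e) % 2 = e := by omega
  rw [h1, h2, h3]

theorem gi_pt (w : ℕ → ℕ) (m i e : ℕ) (hi : i < 3) (he : e < 2) :
    gi a w (pt m i e) = pt m (ti (w (2 * m.unpair.1)) i)
      ((e + bt a w m (ti (w (2 * m.unpair.1)) i)) % 2) := by
  unfold gi pt
  have h1 : (6 * m + 2 * i + e) / 6 = m := by omega
  have h2 : (6 * m + 2 * i + e) % 6 / 2 = i := by omega
  have h3 : (6 * m + 2 * i + e) % 2 = e := by omega
  rw [h1, h2, h3]

/-- the element given by the word `w` -/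
def gp (a : ℕ → ℕ → Bool) (w : ℕ → ℕ) (hw : ∀ k, w k < 6) : Equiv.Perm ℕ where
  toFun := gv a w
  invFun := gi a w
  left_inv := by
    intro x
    obtain ⟨m, i, e, hi, he, rfl⟩ := exists_pt x
    have h := tb_spec (w (2 * m.unpair.1)) (hw _) i hi
    rw [gv_pt _ _ _ _ hi he, gi_pt _ _ _ _ h.1 (by omega), h.2.2.1]
    congr 1
    omega
  right_inv := by
    intro x
    obtain ⟨m, i, e, hi, he, rfl⟩ := exists_pt x
    have h := tb_spec (w (2 * m.unpair.1)) (hw _) i hi
    rw [gi_pt _ _ _ _ hi he, gv_pt _ _ _ _ h.2.1 (by omega), h.2.2.2]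
    congr 1
    omega

theorem gp_apply (w : ℕ → ℕ) (hw : ∀ k, w k < 6) (x : ℕ) : gp a w hw x = gv a w x := rfl
theorem gp_inv_apply (w : ℕ → ℕ) (hw : ∀ k, w k < 6) (x : ℕ) : (gp a w hw)⁻¹ x = gi a w x := rfl

theorem gp_mem (h0 : ∀ n, a n 0 = false) (w : ℕ → ℕ) (hw : ∀ k, w k < 6) : gp a w hw ∈ GG a := by
  intro x
  obtain ⟨m, i, e, hi, he, rfl⟩ := exists_pt x
  have h := tb_spec (w (2 * m.unpair.1)) (hw _) i hi
  rw [gp_apply, gv_pt _ _ _ _ hi he]
  have h3 : pt m i e / 6 = m := by unfold pt; omega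
  refine ⟨?_, ?_, ?_⟩
  · have := h.1
    unfold pt; omega
  · rw [ov_pt _ _ _ h.1 (by omega), ov_pt _ _ _ hi he, gp_apply, gv_pt _ _ _ _ hi (by omega)]
    have : act a (Nat.pair m.unpair.1 0) = false := by
      unfold act; rw [Nat.unpair_pair]; exact h0 _
    simp [bt, this]
  · rw [h3]
    intro hh
    simp only [bt, hh]
    unfold pt
    simp
    omega

/-- every element is given by a word -/
theorem exists_word {g : Equiv.Perm ℕ} (hg : g ∈ GG a) : ∃ (w : ℕ → ℕ) (hw : ∀ k, w k < 6),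
    g = gp a w hw := by
  have hinj : ∀ n i j, i < 3 → j < 3 → PP g n i = PP g n j → i = j := by
    intro n i j hi hj h
    have d1 := desc hg (Nat.pair n 0) i 0 hi (by omega)
    have d2 := desc hg (Nat.pair n 0) j 0 hj (by omega)
    have d3 := desc hg (Nat.pair n 0) j 1 hj (by omega)
    rw [Nat.unpair_pair] at d1 d2 d3
    have v1 := VV_lt g (Nat.pair n 0) i
    have v2 := VV_lt g (Nat.pair n 0) j
    simp only at d1 d2 d3
    rw [← h] at d2 d3
    have : g (pt (Nat.pair n 0) i 0) = g (pt (Nat.pair n 0) j 0) ∨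
        g (pt (Nat.pair n 0) i 0) = g (pt (Nat.pair n 0) j 1) := by
      rw [d1, d2, d3]
      unfold pt
      omega
    rcases this with h | h
    · have := g.injective h
      unfold pt at this; omega
    · have := g.injective h
      unfold pt at this; omega
  have hk : ∀ n, ∃ k < 6, ∀ i < 3, tb k i = PP g n i := by
    intro n
    obtain ⟨k, hk, h0, h1, h2⟩ := tb_all (PP g n 0) (PP_lt _ _ _) (PP g n 1) (PP_lt _ _ _)
      (PP g n 2) (PP_lt _ _ _) (fun h => by have := hinj n 0 1 (by omega) (by omega) h; omega)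
      (fun h => by have := hinj n 0 2 (by omega) (by omega) h; omega)
      (fun h => by have := hinj n 1 2 (by omega) (by omega) h; omega)
    refine ⟨k, hk, fun i hi => ?_⟩
    interval_cases i
    · exact h0
    · exact h1
    · exact h2
  choose f hf1 hf2 using hk
  have hw : ∀ k, (fun k => if k % 2 = 0 then f (k / 2) else VV g (k / 2 / 3) (k / 2 % 3)) k < 6 := by
    intro k
    simp only
    split_ifs
    · exact hf1 _
    · exact (VV_lt _ _ _).trans (by norm_num)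
  refine ⟨_, hw, ?_⟩
  ext x
  obtain ⟨m, i, e, hi, he, rfl⟩ := exists_pt x
  rw [gp_apply, gv_pt _ _ _ _ hi he, desc hg _ _ _ hi he]
  have e1 : 2 * m.unpair.1 % 2 = 0 := by omega
  have e2 : 2 * m.unpair.1 / 2 = m.unpair.1 := by omega
  have e3 : (2 * (3 * m + i) + 1) % 2 = 1 := by omega
  have e4 : (2 * (3 * m + i) + 1) / 2 / 3 = m := by omega
  have e5 : (2 * (3 * m + i) + 1) / 2 % 3 = i := by omega
  simp only [e1, e2, if_true, hf2 _ _ hi]
  congr 2
  unfold bt
  simp only [e3, e4, e5]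
  by_cases hact : act a m = true
  · simp [hact]
  · rw [Bool.not_eq_true] at hact
    simp [hact, VV_inact hg m i hi hact]

end Pool.Agent.X176.SI
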