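import Pool.Agent.X176.SI.BMain

set_option autoImplicit false

open Encodable Denumerable

namespace Pool.Agent.X176.SI

open Pool.Agent Pool.Agent.Helper227 Pool.Agent.Helper227.EN Pool.Agent.Y785.EN

/-- the relation defining a c.e. set from its enumeration -/
def RR (A : List Bool) (x : ℕ × List Bool) : Prop :=
  (x.1 % 2 = 0 ∧ x.1 / 2 < x.2.length ∧ (x.2.getD (x.1 / 2) false = false ∨
    ∃ s < x.2.length, A.getD (Nat.pair (x.1 / 2) s) false = true)) ∨
  (x.1 % 2 = 1 ∧ (x.1 / 2).unpair.1 < x.2.length ∧ (A.getD (x.1 / 2) false = false ∨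
    x.2.getD (x.1 / 2).unpair.1 false = true))

theorem prim_RR : PrimrecPred fun z : List Bool × (ℕ × List Bool) => RR z.1 z.2 := by
  have h1 : Primrec fun z : List Bool × (ℕ × List Bool) => z.2.1 := Primrec.fst.comp Primrec.snd
  have h2 : Primrec fun z : List Bool × (ℕ × List Bool) => z.2.2 := Primrec.snd.comp Primrec.snd
  have hh : Primrec fun z : List Bool × (ℕ × List Bool) => z.2.1 / 2 :=
    Primrec.nat_div.comp h1 (Primrec.const 2)
  have hm : Primrec fun z : List Bool × (ℕ × List Bool) => z.2.1 % 2 :=
    Primrec.nat_mod.comp h1 (Primrec.const 2)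
  have hl : Primrec fun z : List Bool × (ℕ × List Bool) => z.2.2.length :=
    Primrec.list_length.comp h2
  have hu : Primrec fun z : List Bool × (ℕ × List Bool) => (z.2.1 / 2).unpair.1 :=
    Primrec.fst.comp (Primrec.unpair.comp hh)
  refine PrimrecPred.or (PrimrecPred.and (Primrec.eq.comp hm (Primrec.const 0))
    (PrimrecPred.and (Primrec.nat_lt.comp hh hl) (PrimrecPred.or (Primrec.eq.comp
      ((Primrec.list_getD false).comp h2 hh) (Primrec.const false)) ?_)))
    (PrimrecPred.and (Primrec.eq.comp hm (Primrec.const 1))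
    (PrimrecPred.and (Primrec.nat_lt.comp hu hl) (PrimrecPred.or (Primrec.eq.comp
      ((Primrec.list_getD false).comp Primrec.fst hh) (Primrec.const false))
      (Primrec.eq.comp ((Primrec.list_getD false).comp h2 hu) (Primrec.const true)))))
  refine PP.ex_lt (p := fun (z : List Bool × (ℕ × List Bool)) s =>
    z.1.getD (Nat.pair (z.2.1 / 2) s) false = true) ?_ hl
  exact Primrec.eq.comp ((Primrec.list_getD false).comp (Primrec.fst.comp Primrec.fst)
    (Primrec₂.natPair.comp (hh.comp Primrec.fst) Primrec.snd)) (Primrec.const true)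

/-- A Turing ideal omitting a set that is c.e. in one of its members is not a beta ideal. -/
theorem not_beta {I : Set (ℕ → Bool)} (hI : IsTuringIdeal I) {X K : ℕ → Bool} (hX : X ∈ I)
    (hK : CEIn X {n | K n = true}) (hKI : K ∉ I) : ¬ IsBeta I := by
  classical
  intro hb
  obtain ⟨T, hT, -, hKT⟩ := exists_table hK
  have hTI : T ∈ I := hI.down X hX T hT
  let q : ℕ → ℕ × List Bool := fun k => (decode (α := ℕ × List Bool) k).getD (0, [])
  let h : ℕ → ℕ := fun k => Nat.pair ((q k).1 / 2) (q k).2.length + (q k).1 + 1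
  let F : List Bool → ℕ → Bool := fun A k => decide (RR A (q k))
  have hq : Primrec q := Primrec.option_getD.comp Primrec.decode (Primrec.const _)
  have hh : Primrec h := Primrec.succ.comp (Primrec.nat_add.comp (Primrec₂.natPair.comp
    (Primrec.nat_div.comp (Primrec.fst.comp hq) (Primrec.const 2))
    (Primrec.list_length.comp (Primrec.snd.comp hq))) (Primrec.fst.comp hq))
  have hF : Primrec₂ F := by
    have := (prim_RR.comp (Primrec.fst.pair (hq.comp Primrec.snd) :
      Primrec fun z : List Bool × ℕ => (z.1, q z.2))).decide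
    exact this
  let B : ℕ → Bool := fun k => F (pre T (h k)) k
  have hBI : B ∈ I := hI.down T hTI B (tLe_of_compIn (compIn T hF hh))
  have hBe : ∀ n ρ, B (encode (n, ρ)) = true ↔ RR (pre T (Nat.pair (n / 2) ρ.length + n + 1))
      (n, ρ) := by
    intro n ρ
    simp only [B, F, h, q, encodek, Option.getD_some, decide_eq_true_eq]
  have hmem : ∀ Z, Z ∈ Pi2 B ↔ Z = K := by
    intro Z
    unfold Pi2
    simp only [Set.mem_ofPred_eq, hBe]
    constructor
    · intro hZ
      funext a
      rw [Bool.eq_iff_iff]
      constructor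
      · intro ha
        obtain ⟨m, h1 | h1⟩ := hZ (2 * a)
        · obtain ⟨-, h2, h3⟩ := h1
          simp only [length_pre, show 2 * a / 2 = a by omega] at h2 h3
          rw [pre_getD _ _ _ _ h2, ha] at h3
          simp only [Bool.true_eq_false, false_or] at h3
          obtain ⟨s, hs, hTs⟩ := h3
          have hlt := Nat.pair_lt_pair_right a hs
          rw [pre_getD _ _ _ _ (by omega)] at hTs
          exact (hKT a).2 ⟨s, hTs⟩
        · exact absurd h1.1 (by simp only; omega)
      · intro ha
        obtain ⟨s, hs⟩ := (hKT a).1 ha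
        obtain ⟨m, h1 | h1⟩ := hZ (2 * Nat.pair a s + 1)
        · exact absurd h1.1 (by simp only; omega)
        · obtain ⟨-, h2, h3⟩ := h1
          simp only [length_pre, show (2 * Nat.pair a s + 1) / 2 = Nat.pair a s by omega,
            Nat.unpair_pair] at h2 h3
          rw [pre_getD _ _ _ _ h2, pre_getD _ _ _ _ (by omega), hs] at h3
          simpa using h3
    · rintro rfl n
      rcases Nat.mod_two_eq_zero_or_one n with hn | hn
      · by_cases hK' : Z (n / 2) = true
        · obtain ⟨s, hs⟩ := (hKT _).1 hK'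
          refine ⟨max (n / 2) s + 1, Or.inl ⟨hn, by simp only [length_pre]; omega, Or.inr
            ⟨s, by simp only [length_pre]; omega, ?_⟩⟩⟩
          have hlt := Nat.pair_lt_pair_right (n / 2) (show s < max (n / 2) s + 1 by omega)
          simp only [length_pre]
          rw [pre_getD _ _ _ _ (by omega)]
          exact hs
        · refine ⟨n / 2 + 1, Or.inl ⟨hn, by simp only [length_pre]; omega, Or.inl ?_⟩⟩
          simp only
          rw [pre_getD _ _ _ _ (by omega)]
          simpa using hK'
      · refine ⟨(n / 2).unpair.1 + 1, Or.inr ⟨hn, by simp only [length_pre]; omega, ?_⟩⟩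
        simp only [length_pre]
        rw [pre_getD _ _ _ _ (by omega), pre_getD _ _ _ _ (by omega)]
        by_cases hT' : T (n / 2) = true
        · right
          exact (hKT _).2 ⟨(n / 2).unpair.2, by rw [Nat.pair_unpair]; exact hT'⟩
        · left
          simpa using hT'
  obtain ⟨Z, hZ, hZB⟩ := hb B hBI ⟨K, (hmem K).2 rfl⟩
  rw [hmem] at hZB
  exact hKI (hZB ▸ hZ)

theorem exists_scott_not_beta : ∃ I : Set (ℕ → Bool), IsScottIdeal I ∧ ¬ IsBeta I := by
  obtain ⟨I, hI, hK⟩ := exists_scott not_K0
  obtain ⟨X, hX⟩ := hI.nonempty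
  exact ⟨I, hI, not_beta hI.toIsTuringIdeal hX (ce_K0 X) hK⟩

end Pool.Agent.X176.SI
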